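import Mathlib

set_option autoImplicit false

/-!
Averages over the subsets of the neighbourhoods; the bound for the degrees from a cover.
-/

namespace Q116.IC4

open Finset

variable {V : Type*} [DecidableEq V]

lemma card_between (W q : Finset V) (s : ℕ) (hq : q ⊆ W) (hs : q.card ≤ s) :
    ((W.powersetCard s).filter fun S => q ⊆ S).card =
      (W.card - q.card).choose (s - q.card) := by
  have h : ((W.powersetCard s).filter fun S => q ⊆ S).card =
      ((W \ q).powersetCard (s - q.card)).card := by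
    apply card_nbij' (fun S => S \ q) (fun R => R ∪ q)
    · intro S hS
      rw [mem_coe, mem_filter, mem_powersetCard] at hS
      rw [mem_coe, mem_powersetCard]
      exact ⟨sdiff_subset_sdiff hS.1.1 (Subset.refl _), by rw [card_sdiff_of_subset hS.2, hS.1.2]⟩
    · intro R hR
      rw [mem_coe, mem_powersetCard] at hR
      rw [mem_coe, mem_filter, mem_powersetCard]
      refine ⟨⟨union_subset (hR.1.trans sdiff_subset) hq, ?_⟩, subset_union_right⟩
      rw [card_union_of_disjoint, hR.2]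
      · omega
      · rw [disjoint_left]
        intro x hx
        exact (mem_sdiff.1 (hR.1 hx)).2
    · intro S hS
      rw [mem_coe, mem_filter] at hS
      exact sdiff_union_of_subset hS.2
    · intro R hR
      rw [mem_coe, mem_powersetCard] at hR
      apply union_sdiff_cancel_right
      rw [disjoint_left]
      intro x hx
      exact (mem_sdiff.1 (hR.1 hx)).2
  rw [h, card_powersetCard, card_sdiff_of_subset hq]

lemma sum_sub (W : Finset V) (s j : ℕ) (hsW : s ≤ W.card) (f : Finset V → ℝ) :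
    (W.card.choose j : ℝ) * ∑ S ∈ W.powersetCard s, ∑ q ∈ S.powersetCard j, f q =
      (W.card.choose s : ℝ) * (s.choose j : ℝ) * ∑ q ∈ W.powersetCard j, f q := by
  rcases Nat.lt_or_ge s j with hj | hj
  · rw [Nat.choose_eq_zero_of_lt hj, Nat.cast_zero, mul_zero, zero_mul]
    rw [sum_eq_zero, mul_zero]
    intro S hS
    rw [mem_powersetCard] at hS
    have : S.powersetCard j = ∅ := by rw [powersetCard_eq_empty]; omega
    rw [this, sum_empty]
  · have h1 : ∀ S ∈ W.powersetCard s, ∑ q ∈ S.powersetCard j, f q =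
        ∑ q ∈ W.powersetCard j, if q ⊆ S then f q else 0 := by
      intro S hS
      rw [mem_powersetCard] at hS
      rw [← sum_filter]
      apply sum_congr _ (fun _ _ => rfl)
      ext q
      rw [mem_filter, mem_powersetCard, mem_powersetCard]
      constructor
      · rintro ⟨h1, h2⟩
        exact ⟨⟨h1.trans hS.1, h2⟩, h1⟩
      · rintro ⟨⟨-, h2⟩, h3⟩
        exact ⟨h3, h2⟩
    rw [sum_congr rfl h1, sum_comm]
    have h2 : ∀ q ∈ W.powersetCard j, ∑ S ∈ W.powersetCard s, (if q ⊆ S then f q else 0) =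
        ((W.card - j).choose (s - j) : ℕ) * f q := by
      intro q hq
      rw [mem_powersetCard] at hq
      rw [← sum_filter, sum_const, nsmul_eq_mul, card_between W q s hq.1 (by omega), hq.2]
    rw [sum_congr rfl h2, ← mul_sum, ← mul_assoc]
    congr 1
    have := Nat.choose_mul (n := W.card) (k := s) (s := j) hj
    exact_mod_cast this.symm

/-- averaging a cover over the `s`-subsets -/
lemma avg (W : Finset V) (s : ℕ) (hsW : s ≤ W.card) (h3 : 3 ≤ W.card) (y : ℝ)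
    (z t : Finset V → ℝ)
    (h : ∀ S ∈ W.powersetCard s, (s : ℝ) ≤ y + ∑ q ∈ S.powersetCard 2, z q +
      ∑ q ∈ S.powersetCard 3, t q) :
    (s : ℝ) ≤ y + (s.choose 2 : ℝ) / (W.card.choose 2 : ℝ) * ∑ q ∈ W.powersetCard 2, z q +
      (s.choose 3 : ℝ) / (W.card.choose 3 : ℝ) * ∑ q ∈ W.powersetCard 3, t q := by
  have hs := sum_le_sum h
  rw [sum_const, card_powersetCard, nsmul_eq_mul, sum_add_distrib, sum_add_distrib, sum_const,
    card_powersetCard, nsmul_eq_mul] at hs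
  have c1 : (0 : ℝ) < W.card.choose s := by
    have : 0 < W.card.choose s := Nat.choose_pos hsW
    exact_mod_cast this
  have c2 : (0 : ℝ) < W.card.choose 2 := by
    have : 0 < W.card.choose 2 := Nat.choose_pos (by omega)
    exact_mod_cast this
  have c3 : (0 : ℝ) < W.card.choose 3 := by
    have : 0 < W.card.choose 3 := Nat.choose_pos h3
    exact_mod_cast this
  have e2 := sum_sub W s 2 hsW z
  have e3 := sum_sub W s 3 hsW t
  have e2' : ∑ S ∈ W.powersetCard s, ∑ q ∈ S.powersetCard 2, z q =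
      W.card.choose s * ((s.choose 2 : ℝ) / (W.card.choose 2 : ℝ) *
        ∑ q ∈ W.powersetCard 2, z q) := by
    field_simp
    linarith
  have e3' : ∑ S ∈ W.powersetCard s, ∑ q ∈ S.powersetCard 3, t q =
      W.card.choose s * ((s.choose 3 : ℝ) / (W.card.choose 3 : ℝ) *
        ∑ q ∈ W.powersetCard 3, t q) := by
    field_simp
    linarith
  rw [e2', e3', ← mul_add, ← mul_add] at hs
  exact le_of_mul_le_mul_left hs c1

/-- the choice of `s` -/
lemma key_s (y : ℝ) (hy : 1 ≤ y) :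
    2 ≤ ⌊y ^ 2⌋₊ + 1 ∧ ((⌊y ^ 2⌋₊ + 1 : ℕ) : ℝ) * (((⌊y ^ 2⌋₊ + 1 : ℕ) : ℝ) - 1) ≤
      2 * y ^ 2 * (((⌊y ^ 2⌋₊ + 1 : ℕ) : ℝ) - y) := by
  have hy2 : 1 ≤ y ^ 2 := one_le_pow₀ hy
  constructor
  · have : 1 ≤ ⌊y ^ 2⌋₊ := by
      rw [Nat.le_floor_iff (by positivity)]
      exact_mod_cast hy2
    omega
  · have h1 : (⌊y ^ 2⌋₊ : ℝ) ≤ y ^ 2 := Nat.floor_le (by positivity)
    have h2 : y ^ 2 < ⌊y ^ 2⌋₊ + 1 := Nat.lt_floor_add_one _
    push_cast
    set s : ℝ := (⌊y ^ 2⌋₊ : ℝ) + 1 with hs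
    set θ : ℝ := s - y ^ 2 with hθ
    have hθ0 : 0 ≤ θ := by rw [hθ]; linarith
    have hθ1 : 0 ≤ 1 - θ := by rw [hθ]; linarith
    have e : 2 * y ^ 2 * (s - y) - s * (s - 1) = (y * (y - 1)) ^ 2 + θ * (1 - θ) := by
      rw [show s = y ^ 2 + θ by rw [hθ]; ring]
      ring
    have : 0 ≤ (y * (y - 1)) ^ 2 + θ * (1 - θ) := by positivity
    linarith

lemma choose_two_real (n : ℕ) : (n.choose 2 : ℝ) = n * (n - 1) / 2 := by
  rw [Nat.cast_choose_two]

/-- the bound of a degree: `z` is the part of the cover which is common to all neighbourhoods, `u`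
and `t` are the small parts -/
lemma degree_bound (W : Finset V) (J m : ℕ) (hJm : J ≤ m) (hm3 : 3 ≤ m) (hmW : m ≤ W.card)
    (y0 Z : ℝ) (hy0 : 1 ≤ y0) (z u t : Finset V → ℝ) (hz : ∀ q, 0 ≤ z q) (hu : ∀ q, 0 ≤ u q)
    (ht : ∀ q, 0 ≤ t q)
    (hcov : ∀ S ⊆ W, 2 ≤ S.card → S.card ≤ J → (S.card : ℝ) ≤ y0 +
      ∑ q ∈ S.powersetCard 2, (z q + u q) + ∑ q ∈ S.powersetCard 3, t q)
    (hZ : ∑ q ∈ W.powersetCard 2, z q ≤ Z) (U T : ℝ) (hU : ∑ q ∈ W.powersetCard 2, u q ≤ U)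
    (hT : ∑ q ∈ W.powersetCard 3, t q ≤ T) (y : ℝ)
    (hy : y = y0 + (J : ℝ) ^ 2 / (m.choose 2 : ℝ) * U + (J : ℝ) ^ 3 / (m.choose 3 : ℝ) * T)
    (hyJ : y ^ 2 < J) : (W.card : ℝ) ≤ 1 + y * Real.sqrt (2 * Z) := by
  have c2 : (0 : ℝ) < m.choose 2 := by
    have : 0 < m.choose 2 := Nat.choose_pos (by omega)
    exact_mod_cast this
  have c3 : (0 : ℝ) < m.choose 3 := by
    have : 0 < m.choose 3 := Nat.choose_pos hm3
    exact_mod_cast this
  have c2W : (m.choose 2 : ℝ) ≤ W.card.choose 2 := by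
    have := Nat.choose_le_choose 2 hmW
    exact_mod_cast this
  have c3W : (m.choose 3 : ℝ) ≤ W.card.choose 3 := by
    have := Nat.choose_le_choose 3 hmW
    exact_mod_cast this
  have hU0 : 0 ≤ U := (sum_nonneg (fun q _ => hu q)).trans hU
  have hT0 : 0 ≤ T := (sum_nonneg (fun q _ => ht q)).trans hT
  have hZ0 : 0 ≤ Z := (sum_nonneg (fun q _ => hz q)).trans hZ
  have hy1 : 1 ≤ y := by
    rw [hy]
    have : 0 ≤ (J : ℝ) ^ 2 / (m.choose 2 : ℝ) * U := by positivity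
    have : 0 ≤ (J : ℝ) ^ 3 / (m.choose 3 : ℝ) * T := by positivity
    linarith
  obtain ⟨hs2, hsq⟩ := key_s y hy1
  set s : ℕ := ⌊y ^ 2⌋₊ + 1 with hs
  have hsJ : s ≤ J := by
    have : ⌊y ^ 2⌋₊ < J := by
      rw [Nat.floor_lt (by positivity)]
      exact hyJ
    omega
  have hsW : s ≤ W.card := by omega
  have h1 := avg W s hsW (by omega) y0 (fun q => z q + u q) t (by
    intro S hS
    rw [mem_powersetCard] at hS
    have := hcov S hS.1 (by omega) (by omega)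
    rw [hS.2] at this
    exact this)
  have hsJr : (s : ℝ) ≤ J := by exact_mod_cast hsJ
  have hc2 : (s.choose 2 : ℝ) ≤ (J : ℝ) ^ 2 := by
    have h2 : s.choose 2 ≤ s ^ 2 := Nat.choose_le_pow s 2
    have h3 : s ^ 2 ≤ J ^ 2 := Nat.pow_le_pow_left hsJ 2
    exact_mod_cast h2.trans h3
  have hc3 : (s.choose 3 : ℝ) ≤ (J : ℝ) ^ 3 := by
    have h2 : s.choose 3 ≤ s ^ 3 := Nat.choose_le_pow s 3
    have h3 : s ^ 3 ≤ J ^ 3 := Nat.pow_le_pow_left hsJ 3
    exact_mod_cast h2.trans h3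
  have h2 : (s : ℝ) ≤ y + (s.choose 2 : ℝ) / (W.card.choose 2 : ℝ) * Z := by
    rw [sum_add_distrib, mul_add] at h1
    have k1 : (s.choose 2 : ℝ) / (W.card.choose 2 : ℝ) * ∑ q ∈ W.powersetCard 2, u q ≤
        (J : ℝ) ^ 2 / (m.choose 2 : ℝ) * U := by
      apply mul_le_mul _ hU (sum_nonneg (fun q _ => hu q)) (by positivity)
      exact div_le_div₀ (by positivity) hc2 c2 c2W
    have k2 : (s.choose 3 : ℝ) / (W.card.choose 3 : ℝ) * ∑ q ∈ W.powersetCard 3, t q ≤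
        (J : ℝ) ^ 3 / (m.choose 3 : ℝ) * T := by
      apply mul_le_mul _ hT (sum_nonneg (fun q _ => ht q)) (by positivity)
      exact div_le_div₀ (by positivity) hc3 c3 c3W
    have k3 : (s.choose 2 : ℝ) / (W.card.choose 2 : ℝ) * ∑ q ∈ W.powersetCard 2, z q ≤
        (s.choose 2 : ℝ) / (W.card.choose 2 : ℝ) * Z :=
      mul_le_mul_of_nonneg_left hZ (by positivity)
    rw [hy]
    linarith
  have cW : (0 : ℝ) < W.card.choose 2 := lt_of_lt_of_le c2 c2W
  have hs0 : (2 : ℝ) ≤ s := by exact_mod_cast hs2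
  have h3 : (W.card.choose 2 : ℝ) ≤ y ^ 2 * Z := by
    have e1 : ((s : ℝ) - y) * (W.card.choose 2 : ℝ) ≤ (s.choose 2 : ℝ) * Z := by
      have : (s : ℝ) - y ≤ (s.choose 2 : ℝ) / (W.card.choose 2 : ℝ) * Z := by linarith
      rw [div_mul_eq_mul_div, le_div_iff₀ cW] at this
      exact this
    rw [choose_two_real s] at e1
    have hss : (0 : ℝ) < s * (s - 1) := by nlinarith
    -- `s (s - 1) C ≤ 2 y² (s - y) C ≤ y² s (s - 1) Z`
    have e2 : (s : ℝ) * (s - 1) * (W.card.choose 2 : ℝ) ≤ s * (s - 1) * (y ^ 2 * Z) := by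
      calc (s : ℝ) * (s - 1) * (W.card.choose 2 : ℝ)
          ≤ 2 * y ^ 2 * (s - y) * (W.card.choose 2 : ℝ) :=
            mul_le_mul_of_nonneg_right hsq cW.le
        _ = 2 * y ^ 2 * ((s - y) * (W.card.choose 2 : ℝ)) := by ring
        _ ≤ 2 * y ^ 2 * ((s : ℝ) * (s - 1) / 2 * Z) :=
            mul_le_mul_of_nonneg_left e1 (by positivity)
        _ = _ := by ring
    exact le_of_mul_le_mul_left e2 hss
  rw [choose_two_real] at h3
  have hW1 : (1 : ℝ) ≤ W.card := by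
    have : 1 ≤ W.card := by omega
    exact_mod_cast this
  have h4 : ((W.card : ℝ) - 1) ^ 2 ≤ (y * Real.sqrt (2 * Z)) ^ 2 := by
    rw [mul_pow, Real.sq_sqrt (by positivity)]
    nlinarith
  have h5 := abs_le_of_sq_le_sq h4 (by positivity)
  linarith [le_abs_self ((W.card : ℝ) - 1)]

/-- **The bound of the degree sum from a cover.** -/
theorem degree_sum {B : Type*} (BB : Finset B) (N : B → Finset V) (J m : ℕ) (hJ1 : 1 ≤ J)
    (hJm : J ≤ m) (hm3 : 3 ≤ m) (a Z T : ℝ) (ha : ∀ b ∈ BB, ((N b).card : ℝ) ≤ a)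
    (y0 : B → ℝ) (hy0 : ∀ b, 0 ≤ y0 b) (z t : Finset V → ℝ) (u : B → Finset V → ℝ)
    (hz : ∀ q, 0 ≤ z q) (hu : ∀ b q, 0 ≤ u b q) (ht : ∀ q, 0 ≤ t q)
    (hcov : ∀ b ∈ BB, ∀ S ⊆ N b, 2 ≤ S.card → S.card ≤ J → (S.card : ℝ) ≤ 1 + y0 b +
      ∑ q ∈ S.powersetCard 2, (z q + u b q) + ∑ q ∈ S.powersetCard 3, t q)
    (hZ : ∀ b ∈ BB, ∑ q ∈ (N b).powersetCard 2, z q ≤ Z)
    (hT : ∀ b ∈ BB, ∑ q ∈ (N b).powersetCard 3, t q ≤ T) (hT0 : 0 ≤ T) (hZ0 : 0 ≤ Z)
    (ha0 : 0 ≤ a) :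
    ∑ b ∈ BB, ((N b).card : ℝ) ≤ (m + 1) * BB.card + (Real.sqrt (2 * Z) + a / Real.sqrt J) *
      (BB.card + ∑ b ∈ BB, y0 b +
        (J : ℝ) ^ 2 / (m.choose 2 : ℝ) * ∑ b ∈ BB, ∑ q ∈ (N b).powersetCard 2, u b q +
        (J : ℝ) ^ 3 / (m.choose 3 : ℝ) * (BB.card * T)) := by
  set y : B → ℝ := fun b => 1 + y0 b +
    (J : ℝ) ^ 2 / (m.choose 2 : ℝ) * ∑ q ∈ (N b).powersetCard 2, u b q +
    (J : ℝ) ^ 3 / (m.choose 3 : ℝ) * T with hy
  have hJr : (1 : ℝ) ≤ J := by exact_mod_cast hJ1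
  have hsJ : 0 < Real.sqrt J := Real.sqrt_pos.2 (by linarith)
  have hy1 : ∀ b, 1 ≤ y b := by
    intro b
    have h1 : 0 ≤ (J : ℝ) ^ 2 / (m.choose 2 : ℝ) * ∑ q ∈ (N b).powersetCard 2, u b q :=
      mul_nonneg (by positivity) (sum_nonneg (fun q _ => hu b q))
    have h2 : 0 ≤ (J : ℝ) ^ 3 / (m.choose 3 : ℝ) * T := mul_nonneg (by positivity) hT0
    have := hy0 b
    simp only [hy]
    linarith
  have hone : ∀ b ∈ BB, ((N b).card : ℝ) ≤ (m + 1) +
      (Real.sqrt (2 * Z) + a / Real.sqrt J) * y b := by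
    intro b hb
    have hyb := hy1 b
    have e1 : 0 ≤ Real.sqrt (2 * Z) * y b := mul_nonneg (Real.sqrt_nonneg _) (by linarith)
    have e2 : 0 ≤ a / Real.sqrt J * y b := mul_nonneg (by positivity) (by linarith)
    have e3 : (0 : ℝ) ≤ m := Nat.cast_nonneg _
    rcases Nat.lt_or_ge (N b).card m with h | h
    · have : ((N b).card : ℝ) ≤ m := by exact_mod_cast h.le
      rw [add_mul]
      linarith
    · rcases lt_or_ge (y b ^ 2) (J : ℝ) with h2 | h2
      · have := degree_bound (N b) J m hJm hm3 h (1 + y0 b) Z (by linarith [hy0 b]) z (u b) t hz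
          (hu b) ht (hcov b hb) (hZ b hb) _ T le_rfl (hT b hb) (y b) rfl h2
        rw [add_mul]
        linarith
      · have h3 : Real.sqrt J ≤ y b := by
          rw [Real.sqrt_le_left (by linarith)]
          exact h2
        have h4 : a ≤ a / Real.sqrt J * y b := by
          rw [div_mul_eq_mul_div, le_div_iff₀ hsJ]
          exact mul_le_mul_of_nonneg_left h3 ha0
        have := ha b hb
        rw [add_mul]
        linarith
  refine (sum_le_sum hone).trans (le_of_eq ?_)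
  rw [sum_add_distrib, sum_const, nsmul_eq_mul, ← mul_sum]
  have : ∑ b ∈ BB, y b = BB.card + ∑ b ∈ BB, y0 b +
        (J : ℝ) ^ 2 / (m.choose 2 : ℝ) * ∑ b ∈ BB, ∑ q ∈ (N b).powersetCard 2, u b q +
        (J : ℝ) ^ 3 / (m.choose 3 : ℝ) * (BB.card * T) := by
    simp only [hy]
    rw [sum_add_distrib, sum_add_distrib, sum_add_distrib, sum_const, sum_const, nsmul_eq_mul,
      nsmul_eq_mul, ← mul_sum]
    ring
  rw [this]
  ring

/-- `Y √(2 Z) ≤ c (Y + Z) ^ (3/2)`, squared -/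
lemma amgm (Y Z : ℝ) (hY : 0 ≤ Y) (hZ : 0 ≤ Z) :
    27 * (Real.sqrt (2 * Z) * Y) ^ 2 ≤ 8 * (Y + Z) ^ 3 := by
  rw [mul_pow, Real.sq_sqrt (by positivity)]
  nlinarith [mul_nonneg (add_nonneg (mul_nonneg (by norm_num : (0 : ℝ) ≤ 4) hY) hZ)
    (sq_nonneg (Y - 2 * Z))]

end Q116.IC4
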