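import Pool.Agent.Q116.IC4.Dual

set_option autoImplicit false

/-!
The upper bound for bipartite graphs with a small side.
-/

namespace Q116.IC4

open Finset

/-- the constant `√(8 / 27) = 2 √2 / (3 √3)` -/
noncomputable def cc : ℝ := Real.sqrt (8 / 27)

lemma cc_sq : cc ^ 2 = 8 / 27 := Real.sq_sqrt (by norm_num)

lemma cc_nonneg : 0 ≤ cc := Real.sqrt_nonneg _

lemma cc_le : cc ≤ 1 := by
  unfold cc
  exact Real.sqrt_le_iff.2 ⟨by norm_num, by norm_num⟩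

lemma choose2_lower (m : ℕ) (hm : 3 ≤ m) : (m : ℝ) ^ 2 / 4 ≤ m.choose 2 := by
  rw [choose_two_real]
  have : (3 : ℝ) ≤ m := by exact_mod_cast hm
  nlinarith

lemma choose3_lower (m : ℕ) (hm : 3 ≤ m) : (m : ℝ) ^ 3 / 162 ≤ m.choose 3 := by
  have h := Nat.pow_le_choose (α := ℝ) 3 m
  have h3 : (m : ℝ) / 3 ≤ ((m + 1 - 3 : ℕ) : ℝ) := by
    have h1 : m ≤ 3 * (m + 1 - 3) := by omega
    have h2 : (m : ℝ) ≤ 3 * ((m + 1 - 3 : ℕ) : ℝ) := by exact_mod_cast h1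
    linarith
  refine le_trans ?_ h
  have h4 : ((m : ℝ) / 3) ^ 3 ≤ ((m + 1 - 3 : ℕ) : ℝ) ^ 3 := by gcongr
  have h5 : ((3 : ℕ).factorial : ℝ) = 6 := by norm_num [Nat.factorial]
  rw [h5]
  calc (m : ℝ) ^ 3 / 162 = ((m : ℝ) / 3) ^ 3 / 6 := by ring
    _ ≤ _ := by gcongr

theorem bip (ε K : ℝ) (hε : 0 < ε) (hK : 0 ≤ K) :
    ∃ k2 : ℕ, ∀ k : ℕ, k2 ≤ k → ∀ (V : Type) [Fintype V] [DecidableEq V]
      (BB : Finset V) (N : V → Finset V), BB.card ≤ k → (∀ b ∈ BB, (N b).Nonempty) →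
      (∀ b ∈ BB, ((N b).card : ℝ) ≤ K * Real.sqrt k) → NoSel BB N k →
      ∑ b ∈ BB, ((N b).card : ℝ) ≤ (cc + ε) * (k * Real.sqrt k) := by
  -- constants
  set J : ℕ := ⌈(16 * K / ε) ^ 2⌉₊ + 1 with hJ
  have hJr : (1 : ℝ) ≤ J := by
    have : 1 ≤ J := by omega
    exact_mod_cast this
  have hsJ : 16 * K / ε ≤ Real.sqrt J := by
    apply Real.le_sqrt_of_sq_le
    have := Nat.le_ceil ((16 * K / ε) ^ 2)
    rw [hJ]
    push_cast
    linarith
  have hsJ0 : 0 < Real.sqrt J := Real.sqrt_pos.2 (by linarith)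
  set θ : ℝ := min (1 / 2) (ε / 24) with hθ
  have hθ0 : 0 < θ := lt_min (by norm_num) (by positivity)
  have hθ1 : θ ≤ 1 / 2 := min_le_left _ _
  have hθ2 : θ ≤ ε / 24 := min_le_right _ _
  obtain ⟨κ, hκ, k1, hcov⟩ := exists_cover J θ hθ0
  set η : ℝ := ε / 8 with hη
  have hη0 : 0 < η := by positivity
  set Q0 : ℝ := 1 + (J + 3) / η + 16 * (J : ℝ) ^ 2 / (η ^ 2 * κ * θ) +
    648 * (J : ℝ) ^ 3 / (η ^ 3 * κ * θ) + 16 / ε with hQ0
  clear_value J θ η Q0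
  refine ⟨max k1 ⌈Q0 ^ 2⌉₊, fun k hk V _ _ BB N hBk hne hN hsel => ?_⟩
  obtain ⟨y0, z, t, u, ⟨hy0, hz, ht, hu, hc⟩, hcost⟩ := hcov k ((le_max_left _ _).trans hk) V BB N
    hBk hne hsel
  set q : ℝ := Real.sqrt k with hq
  have hq2 : q ^ 2 = k := Real.sq_sqrt (Nat.cast_nonneg _)
  clear_value q
  have p1 : 0 ≤ (J + 3 : ℝ) / η := by positivity
  have p2 : 0 ≤ 16 * (J : ℝ) ^ 2 / (η ^ 2 * κ * θ) := by positivity
  have p3 : 0 ≤ 648 * (J : ℝ) ^ 3 / (η ^ 3 * κ * θ) := by positivity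
  have p4 : 0 ≤ 16 / ε := by positivity
  have hQq : Q0 ≤ q := by
    rw [hq]
    apply Real.le_sqrt_of_sq_le
    exact (Nat.le_ceil _).trans (by exact_mod_cast (le_max_right _ _).trans hk)
  have q0 : 1 ≤ q := by linarith
  have q1 : J + 3 ≤ η * q := by
    have : (J + 3 : ℝ) / η ≤ q := by linarith
    rw [div_le_iff₀ hη0] at this
    linarith
  have q2 : 16 * (J : ℝ) ^ 2 ≤ η ^ 2 * κ * θ * q := by
    have : 16 * (J : ℝ) ^ 2 / (η ^ 2 * κ * θ) ≤ q := by linarith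
    rw [div_le_iff₀ (by positivity)] at this
    linarith
  have q3 : 648 * (J : ℝ) ^ 3 ≤ η ^ 3 * κ * θ * q := by
    have : 648 * (J : ℝ) ^ 3 / (η ^ 3 * κ * θ) ≤ q := by linarith
    rw [div_le_iff₀ (by positivity)] at this
    linarith
  have q4 : 16 ≤ ε * q := by
    have : 16 / ε ≤ q := by linarith
    rw [div_le_iff₀ hε] at this
    linarith
  have qpos : 0 < q := by linarith
  set m : ℕ := ⌈η * q⌉₊ with hm
  have hm1 : η * q ≤ m := Nat.le_ceil _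
  have hm2 : (m : ℝ) ≤ η * q + 1 := (Nat.ceil_lt_add_one (by positivity)).le
  clear_value m
  have hJm : J ≤ m := by
    have : (J : ℝ) ≤ m := by linarith
    exact_mod_cast this
  have hm3 : 3 ≤ m := by
    have : (3 : ℝ) ≤ m := by linarith
    exact_mod_cast this
  -- the totals
  set Z : ℝ := ∑ q, z q with hZ
  set T : ℝ := ∑ q, t q with hT
  set U : ℝ := ∑ b, ∑ q, u b q with hU
  have hZ0 : 0 ≤ Z := sum_nonneg (fun q _ => hz q)
  have hT0 : 0 ≤ T := sum_nonneg (fun q _ => ht q)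
  have hU0 : 0 ≤ U := sum_nonneg (fun b _ => sum_nonneg (fun q _ => hu b q))
  have hy00 : 0 ≤ ∑ b ∈ BB, y0 b := sum_nonneg (fun b _ => hy0 b)
  have hB0 : (0 : ℝ) ≤ BB.card := Nat.cast_nonneg _
  clear_value U T
  have hBk' : (BB.card : ℝ) ≤ k := by exact_mod_cast hBk
  have hkq : (k : ℝ) = q ^ 2 := hq2.symm
  have hds := degree_sum BB N J m (by omega) hJm hm3 (K * q) Z T hN y0 hy0 z t u hz hu ht hc
    (fun b _ => sum_le_sum_of_subset_of_nonneg (subset_univ _) (fun q _ _ => hz q))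
    (fun b _ => by
      rw [hT]
      exact sum_le_sum_of_subset_of_nonneg (subset_univ _) (fun q _ _ => ht q)) hT0 hZ0
    (by positivity)
  set Y : ℝ := BB.card + ∑ b ∈ BB, y0 b +
        (J : ℝ) ^ 2 / (m.choose 2 : ℝ) * ∑ b ∈ BB, ∑ q ∈ (N b).powersetCard 2, u b q +
        (J : ℝ) ^ 3 / (m.choose 3 : ℝ) * (BB.card * T) with hY
  have hκUT : κ * (U + T) ≤ 2 * q ^ 2 := by
    have h1 : (1 + θ) * k ≤ 2 * q ^ 2 := by
      rw [hkq]
      have : (1 + θ) * q ^ 2 ≤ 2 * q ^ 2 := by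
        apply mul_le_mul_of_nonneg_right _ (by positivity)
        linarith
      exact this
    linarith
  have hUle : ∑ b ∈ BB, ∑ q ∈ (N b).powersetCard 2, u b q ≤ U := by
    rw [hU]
    calc ∑ b ∈ BB, ∑ q ∈ (N b).powersetCard 2, u b q ≤ ∑ b ∈ BB, ∑ q, u b q :=
          sum_le_sum (fun b _ => sum_le_sum_of_subset_of_nonneg (subset_univ _)
            (fun q _ _ => hu b q))
      _ ≤ _ := sum_le_sum_of_subset_of_nonneg (subset_univ _)
          (fun b _ _ => sum_nonneg (fun q _ => hu b q))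
  have hUk : κ * U ≤ 2 * q ^ 2 := by
    have : 0 ≤ κ * T := by positivity
    linarith
  have hTk : κ * T ≤ 2 * q ^ 2 := by
    have : 0 ≤ κ * U := by positivity
    linarith
  have hmq : (0 : ℝ) < m := by
    have : 0 < m := by omega
    exact_mod_cast this
  -- the two error terms
  have c2 : η ^ 2 * q ^ 2 / 4 ≤ m.choose 2 := by
    refine le_trans ?_ (choose2_lower m hm3)
    have : (η * q) ^ 2 ≤ (m : ℝ) ^ 2 := by gcongr
    linarith
  have c3 : η ^ 3 * q ^ 3 / 162 ≤ m.choose 3 := by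
    refine le_trans ?_ (choose3_lower m hm3)
    have : (η * q) ^ 3 ≤ (m : ℝ) ^ 3 := by gcongr
    linarith
  have c2' : (0 : ℝ) < m.choose 2 := lt_of_lt_of_le (by positivity) c2
  have c3' : (0 : ℝ) < m.choose 3 := lt_of_lt_of_le (by positivity) c3
  have e1 : (J : ℝ) ^ 2 / (m.choose 2 : ℝ) * ∑ b ∈ BB, ∑ q ∈ (N b).powersetCard 2, u b q ≤
      θ / 2 * q ^ 2 := by
    have h1 : (J : ℝ) ^ 2 / (m.choose 2 : ℝ) * ∑ b ∈ BB, ∑ q ∈ (N b).powersetCard 2, u b q ≤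
        (J : ℝ) ^ 2 / (m.choose 2 : ℝ) * U := mul_le_mul_of_nonneg_left hUle (by positivity)
    refine h1.trans ?_
    rw [div_mul_eq_mul_div, div_le_iff₀ c2']
    have h2 : (J : ℝ) ^ 2 * U * κ ≤ θ / 2 * q ^ 2 * (η ^ 2 * q ^ 2 / 4) * κ := by
      calc (J : ℝ) ^ 2 * U * κ = (J : ℝ) ^ 2 * (κ * U) := by ring
        _ ≤ (J : ℝ) ^ 2 * (2 * q ^ 2) := by gcongr
        _ = 16 * (J : ℝ) ^ 2 * (q ^ 2 / 8) := by ring
        _ ≤ η ^ 2 * κ * θ * q * (q ^ 2 / 8) := by gcongr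
        _ ≤ η ^ 2 * κ * θ * q * (q ^ 2 / 8) * q := by
            have : 0 ≤ η ^ 2 * κ * θ * q * (q ^ 2 / 8) := by positivity
            nlinarith
        _ = _ := by ring
    have h3 := le_of_mul_le_mul_right h2 hκ
    exact h3.trans (mul_le_mul_of_nonneg_left c2 (by positivity))
  have e2 : (J : ℝ) ^ 3 / (m.choose 3 : ℝ) * (BB.card * T) ≤ θ / 2 * q ^ 2 := by
    have h1 : (J : ℝ) ^ 3 / (m.choose 3 : ℝ) * (BB.card * T) ≤
        (J : ℝ) ^ 3 / (m.choose 3 : ℝ) * (q ^ 2 * T) := by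
      apply mul_le_mul_of_nonneg_left _ (by positivity)
      apply mul_le_mul_of_nonneg_right _ hT0
      linarith
    refine h1.trans ?_
    rw [div_mul_eq_mul_div, div_le_iff₀ c3']
    have h2 : (J : ℝ) ^ 3 * (q ^ 2 * T) * κ ≤ θ / 2 * q ^ 2 * (η ^ 3 * q ^ 3 / 162) * κ := by
      calc (J : ℝ) ^ 3 * (q ^ 2 * T) * κ = (J : ℝ) ^ 3 * q ^ 2 * (κ * T) := by ring
        _ ≤ (J : ℝ) ^ 3 * q ^ 2 * (2 * q ^ 2) := by gcongr
        _ = 648 * (J : ℝ) ^ 3 * (q ^ 4 / 324) := by ring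
        _ ≤ η ^ 3 * κ * θ * q * (q ^ 4 / 324) := by gcongr
        _ = _ := by ring
    have h3 := le_of_mul_le_mul_right h2 hκ
    exact h3.trans (mul_le_mul_of_nonneg_left c3 (by positivity))
  have hY0 : 0 ≤ Y := by
    have : 0 ≤ (J : ℝ) ^ 2 / (m.choose 2 : ℝ) * ∑ b ∈ BB, ∑ q ∈ (N b).powersetCard 2, u b q :=
      mul_nonneg (div_nonneg (pow_nonneg (by linarith) _) c2'.le)
        (sum_nonneg (fun b _ => sum_nonneg (fun q _ => hu b q)))
    have : 0 ≤ (J : ℝ) ^ 3 / (m.choose 3 : ℝ) * (BB.card * T) :=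
      mul_nonneg (div_nonneg (pow_nonneg (by linarith) _) c3'.le) (mul_nonneg hB0 hT0)
    rw [hY]
    linarith
  have hYZ : Y + Z ≤ (1 + 2 * θ) * q ^ 2 := by
    have : 0 ≤ κ * (U + T) := by positivity
    rw [hkq] at hcost
    rw [hY]
    linarith
  clear_value Y Z
  have hY2 : Y ≤ 2 * q ^ 2 := by
    have : (1 + 2 * θ) * q ^ 2 ≤ 2 * q ^ 2 := by
      apply mul_le_mul_of_nonneg_right _ (by positivity)
      linarith
    linarith
  -- the main term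
  have hmain : Real.sqrt (2 * Z) * Y ≤ cc * (1 + 2 * θ) ^ 2 * q ^ 3 := by
    have h1 := amgm Y Z hY0 hZ0
    have h2 : (Real.sqrt (2 * Z) * Y) ^ 2 ≤ (cc * (1 + 2 * θ) ^ 2 * q ^ 3) ^ 2 := by
      have h3 : (Y + Z) ^ 3 ≤ ((1 + 2 * θ) * q ^ 2) ^ 3 := by gcongr
      have h4 : (1 + 2 * θ) ^ 3 ≤ (1 + 2 * θ) ^ 4 := pow_le_pow_right₀ (by linarith) (by norm_num)
      have h5 : (cc * (1 + 2 * θ) ^ 2 * q ^ 3) ^ 2 = 8 / 27 * ((1 + 2 * θ) ^ 4 * q ^ 6) := by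
        rw [← cc_sq]
        ring
      rw [h5]
      have h6 : ((1 + 2 * θ) * q ^ 2) ^ 3 ≤ (1 + 2 * θ) ^ 4 * q ^ 6 := by
        calc ((1 + 2 * θ) * q ^ 2) ^ 3 = (1 + 2 * θ) ^ 3 * q ^ 6 := by ring
          _ ≤ _ := by gcongr
      linarith
    exact abs_le_of_sq_le_sq' h2 (by have := cc_nonneg; positivity) |>.2
  have hsecond : K * q / Real.sqrt J * Y ≤ ε / 8 * q ^ 3 := by
    have h1 : K / Real.sqrt J ≤ ε / 16 := by
      rw [div_le_iff₀ hsJ0]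
      rw [div_le_iff₀ hε] at hsJ
      linarith
    calc K * q / Real.sqrt J * Y = K / Real.sqrt J * (q * Y) := by ring
      _ ≤ ε / 16 * (q * (2 * q ^ 2)) := by gcongr
      _ = _ := by ring
  have hfirst : ((m : ℝ) + 1) * BB.card ≤ ε / 4 * q ^ 3 := by
    calc ((m : ℝ) + 1) * BB.card ≤ (η * q + 1 + 1) * q ^ 2 := by
          apply mul_le_mul (by linarith) (by linarith) hB0 (by positivity)
      _ = η * q ^ 3 + 2 * q ^ 2 := by ring
      _ ≤ ε / 8 * q ^ 3 + ε / 8 * q ^ 3 := by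
          rw [hη]
          have : 16 * q ^ 2 ≤ ε * q * q ^ 2 := mul_le_mul_of_nonneg_right q4 (by positivity)
          nlinarith
      _ = _ := by ring
  have hcc : cc * (1 + 2 * θ) ^ 2 * q ^ 3 ≤ (cc + ε / 4) * q ^ 3 := by
    apply mul_le_mul_of_nonneg_right _ (by positivity)
    have h1 : (1 + 2 * θ) ^ 2 ≤ 1 + 6 * θ := by nlinarith
    have h2 : cc * (1 + 2 * θ) ^ 2 ≤ cc * (1 + 6 * θ) :=
      mul_le_mul_of_nonneg_left h1 cc_nonneg
    have h3 : cc * (6 * θ) ≤ 1 * (6 * θ) := mul_le_mul_of_nonneg_right cc_le (by positivity)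
    linarith
  have hfin : (k : ℝ) * q = q ^ 3 := by rw [hkq]; ring
  rw [hfin]
  rw [add_mul] at hds
  have hq3 : 0 ≤ q ^ 3 := by positivity
  nlinarith

end Q116.IC4
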