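import Pool.Agent.Q116.ES.Tok
import Pool.Agent.Q116.IC4.Avg

set_option autoImplicit false

/-!
If no selection of stars has `k` edges, there is a fractional cover of cost less than `(1 + θ) k`.
-/

namespace Q116.IC4

open Finset

/-- no selection of stars `S b ⊆ N b` with pairwise at most one common leaf has `k` edges -/
def NoSel {V : Type} [DecidableEq V] (BB : Finset V) (N : V → Finset V) (k : ℕ) : Prop :=
  ∀ S : V → Finset V, (∀ b ∈ BB, S b ⊆ N b) →
    (∀ b ∈ BB, ∀ b' ∈ BB, b ≠ b' → (S b ∩ S b').card ≤ 1) → ∑ b ∈ BB, (S b).card < k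

/-- the fractional covers -/
def IsCover {V : Type} [DecidableEq V] (BB : Finset V) (N : V → Finset V) (J : ℕ) (y0 : V → ℝ)
    (z t : Finset V → ℝ) (u : V → Finset V → ℝ) : Prop :=
  (∀ b, 0 ≤ y0 b) ∧ (∀ q, 0 ≤ z q) ∧ (∀ q, 0 ≤ t q) ∧ (∀ b q, 0 ≤ u b q) ∧
  ∀ b ∈ BB, ∀ S ⊆ N b, 2 ≤ S.card → S.card ≤ J → (S.card : ℝ) ≤ 1 + y0 b +
      ∑ q ∈ S.powersetCard 2, (z q + u b q) + ∑ q ∈ S.powersetCard 3, t q

theorem exists_cover (J : ℕ) (θ : ℝ) (hθ : 0 < θ) :
    ∃ κ : ℝ, 0 < κ ∧ ∃ k1 : ℕ, ∀ k : ℕ, k1 ≤ k → ∀ (V : Type) [Fintype V] [DecidableEq V]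
      (BB : Finset V) (N : V → Finset V), BB.card ≤ k → (∀ b ∈ BB, (N b).Nonempty) →
      NoSel BB N k → ∃ (y0 : V → ℝ) (z t : Finset V → ℝ) (u : V → Finset V → ℝ),
        IsCover BB N J y0 z t u ∧
        (BB.card : ℝ) + ∑ b ∈ BB, y0 b + ∑ q, z q + κ * (∑ b, ∑ q, u b q + ∑ q, t q) <
          (1 + θ) * k := by
  classical
  obtain ⟨κ, hκ, N0, hpack⟩ := ES.pack (1 + J ^ 2) J θ hθ
  refine ⟨κ, hκ, ⌈N0⌉₊, fun k hk V _ _ BB N hBk hne hsel => ?_⟩
  by_contra hcon
  push Not at hcon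
  have hkN : N0 ≤ (k : ℝ) := (Nat.le_ceil _).trans (by exact_mod_cast hk)
  let T : Type := {p : V × Finset V // p.1 ∈ BB ∧ p.2 ⊆ N p.1 ∧ 2 ≤ p.2.card ∧ p.2.card ≤ J}
  obtain ⟨M, hM1, hM2⟩ := hpack T (V ⊕ Finset V) ((V × Finset V) ⊕ Finset V)
    (fun t => ({t.1.1} : Finset V).disjSum (t.1.2.powersetCard 2))
    (fun t => (({t.1.1} : Finset V) ×ˢ (t.1.2.powersetCard 2)).disjSum (t.1.2.powersetCard 3))
    (fun t => t.1.2.card - 1) (BB.disjSum ∅) k ((1 + θ) * k - BB.card) hkN
    (by rw [card_disjSum, card_empty, add_zero]; exact_mod_cast hBk)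
    (fun t => by
      rw [card_disjSum, card_singleton, card_powersetCard]
      have h1 : t.1.2.card.choose 2 ≤ t.1.2.card ^ 2 := Nat.choose_le_pow _ 2
      have h2 : t.1.2.card ^ 2 ≤ J ^ 2 := Nat.pow_le_pow_left t.2.2.2.2 2
      omega)
    (fun t => ⟨Sum.inl t.1.1, by simp, by simp [t.2.1]⟩)
    (fun t => by have := t.2.2.2.2; omega)
    (fun t => by have := t.2.2.2.1; omega)
    (by
      rintro (b | q) (b' | q') hne'
      · left
        rintro t ⟨h1, h2⟩
        rw [inl_mem_disjSum, mem_singleton] at h1 h2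
        exact hne' (by rw [h1, h2])
      · right
        refine ⟨Sum.inl (b, q'), fun t h1 h2 => ?_⟩
        rw [inl_mem_disjSum] at h1 ⊢
        rw [inr_mem_disjSum] at h2
        rw [mem_product]
        exact ⟨h1, h2⟩
      · right
        refine ⟨Sum.inl (b', q), fun t h1 h2 => ?_⟩
        rw [inl_mem_disjSum] at h2 ⊢
        rw [inr_mem_disjSum] at h1
        rw [mem_product]
        exact ⟨h2, h1⟩
      · by_cases h : 3 ≤ (q ∪ q').card
        · right
          obtain ⟨τ, hτ, hτc⟩ := exists_subset_card_eq h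
          refine ⟨Sum.inr τ, fun t h1 h2 => ?_⟩
          rw [inr_mem_disjSum, mem_powersetCard] at h1 h2 ⊢
          exact ⟨hτ.trans (union_subset h1.1 h2.1), hτc⟩
        · left
          rintro t ⟨h1, h2⟩
          rw [inr_mem_disjSum, mem_powersetCard] at h1 h2
          have h4 : q = q ∪ q' := eq_of_subset_of_card_le subset_union_left (by rw [h1.2]; omega)
          have h5 : q' = q ∪ q' := eq_of_subset_of_card_le subset_union_right (by
            rw [h2.2]; omega)
          exact hne' (by rw [h4.trans h5.symm]))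
    (by
      intro z v hz hv hcov
      have h1 := hcon (fun b => z (Sum.inl b)) (fun q => z (Sum.inr q)) (fun q => v (Sum.inr q))
        (fun b q => v (Sum.inl (b, q))) ⟨fun b => hz _, fun q => hz _, fun q => hv _,
          fun b q => hv _, ?_⟩
      · rw [Fintype.sum_sum_type, Fintype.sum_sum_type, Fintype.sum_prod_type]
        have h2 : ∑ b ∈ BB, z (Sum.inl b) ≤ ∑ b, z (Sum.inl b) :=
          sum_le_sum_of_subset_of_nonneg (subset_univ _) (fun b _ _ => hz _)
        linarith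
      · intro b hb S hS h2 hJ
        have h3 := hcov ⟨(b, S), hb, hS, h2, hJ⟩
        rw [sum_disjSum, sum_disjSum, sum_singleton, sum_product, sum_singleton,
          Nat.cast_sub (show 1 ≤ S.card by omega), Nat.cast_one] at h3
        rw [sum_add_distrib]
        simp only at h3 ⊢
        linarith)
  -- the selection
  have huniq : ∀ t ∈ M, ∀ t' ∈ M, t.1.1 = t'.1.1 → t = t' := by
    intro t ht t' ht' h
    by_contra hne'
    have := hM1 t ht t' ht' hne'
    rw [disjoint_left] at this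
    refine this (a := Sum.inl t.1.1) ?_ ?_
    · rw [inl_mem_disjSum, mem_singleton]
    · rw [inl_mem_disjSum, mem_singleton]
      exact h
  have hex : ∀ b ∈ BB, ∃ S : Finset V, S ⊆ N b ∧ 1 ≤ S.card ∧
      (∀ t ∈ M, t.1.1 = b → S = t.1.2) ∧ ((∃ t ∈ M, t.1.1 = b) ∨ S.card = 1) := by
    intro b hb
    by_cases h : ∃ t ∈ M, t.1.1 = b
    · obtain ⟨t, ht, htb⟩ := h
      refine ⟨t.1.2, ?_, ?_, ?_, Or.inl ⟨t, ht, htb⟩⟩
      · rw [← htb]; exact t.2.2.1
      · have := t.2.2.2.1
        omega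
      · intro t' ht' htb'
        rw [huniq t ht t' ht' (htb.trans htb'.symm)]
    · obtain ⟨x, hx⟩ := hne b hb
      exact ⟨{x}, singleton_subset_iff.2 hx, by rw [card_singleton],
        fun t ht htb => absurd ⟨t, ht, htb⟩ h, Or.inr (card_singleton x)⟩
  choose! S hS1 hS2 hS3 hS4 using hex
  have h1 := hsel S hS1 (by
    intro b hb b' hb' hbb
    by_contra hlt
    push Not at hlt
    have hle : 2 ≤ (S b ∩ S b').card := hlt
    have c1 : (S b ∩ S b').card ≤ (S b).card := card_le_card inter_subset_left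
    have c2 : (S b ∩ S b').card ≤ (S b').card := card_le_card inter_subset_right
    rcases hS4 b hb with ⟨t, ht, htb⟩ | h
    · rcases hS4 b' hb' with ⟨t', ht', htb'⟩ | h'
      · have hne' : t ≠ t' := fun h => hbb (by rw [← htb, ← htb', h])
        have hd := hM1 t ht t' ht' hne'
        obtain ⟨q, hq, hqc⟩ := exists_subset_card_eq hle
        rw [disjoint_left] at hd
        refine hd (a := Sum.inr q) ?_ ?_
        · rw [inr_mem_disjSum, mem_powersetCard, ← hS3 b hb t ht htb]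
          exact ⟨hq.trans inter_subset_left, hqc⟩
        · rw [inr_mem_disjSum, mem_powersetCard, ← hS3 b' hb' t' ht' htb']
          exact ⟨hq.trans inter_subset_right, hqc⟩
      · omega
    · omega)
  have h2 : (∑ b ∈ BB, (S b).card) = BB.card + ∑ b ∈ BB, ((S b).card - 1) := by
    rw [card_eq_sum_ones, ← sum_add_distrib]
    apply sum_congr rfl
    intro b hb
    have := hS2 b hb
    omega
  have h3 : ∑ t ∈ M, (t.1.2.card - 1) ≤ ∑ b ∈ BB, ((S b).card - 1) := by
    calc ∑ t ∈ M, (t.1.2.card - 1) = ∑ t ∈ M, ((S t.1.1).card - 1) := by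
          apply sum_congr rfl
          intro t ht
          rw [hS3 t.1.1 t.2.1 t ht rfl]
      _ = ∑ b ∈ M.image (fun t => t.1.1), ((S b).card - 1) := by
          rw [sum_image (fun t ht t' ht' h => huniq t ht t' ht' h)]
      _ ≤ _ := by
          apply sum_le_sum_of_subset
          intro b hb
          rw [mem_image] at hb
          obtain ⟨t, -, rfl⟩ := hb
          exact t.2.1
  have h4 : ((∑ t ∈ M, (t.1.2.card - 1) : ℕ) : ℝ) ≤ ((∑ b ∈ BB, ((S b).card - 1) : ℕ) : ℝ) := by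
    exact_mod_cast h3
  have h5 : ((∑ b ∈ BB, (S b).card : ℕ) : ℝ) < k := by exact_mod_cast h1
  rw [h2, Nat.cast_add] at h5
  rw [Nat.cast_sum] at h4
  linarith

end Q116.IC4
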