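import Pool.Agent.Q116.IC4.Main

set_option autoImplicit false

/-!
The lower bound for the inverse Turán number of the 4-cycle.
-/

namespace Q116.IC4

open Finset

/-- two edges form a 4-cycle -/
lemma noC4_iff {V : Type} (H : SimpleGraph V) : NoC4 H ↔ (SimpleGraph.cycleGraph 4).Free H := by
  constructor
  · rintro h ⟨φ⟩
    have h01 : (SimpleGraph.cycleGraph 4).Adj 0 1 := by
      rw [SimpleGraph.cycleGraph_adj]; decide
    have h03 : (SimpleGraph.cycleGraph 4).Adj 0 3 := by
      rw [SimpleGraph.cycleGraph_adj]; decide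
    have h21 : (SimpleGraph.cycleGraph 4).Adj 2 1 := by
      rw [SimpleGraph.cycleGraph_adj]; decide
    have h23 : (SimpleGraph.cycleGraph 4).Adj 2 3 := by
      rw [SimpleGraph.cycleGraph_adj]; decide
    exact h (φ 0) (φ 2) (φ 1) (φ 3)
      (fun e => by
        have := φ.injective e
        revert this
        decide)
      (fun e => by
        have := φ.injective e
        revert this
        decide)
      (φ.toHom.map_adj h01) (φ.toHom.map_adj h03) (φ.toHom.map_adj h21) (φ.toHom.map_adj h23)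
  · intro h a b u v hab huv h1 h2 h3 h4
    apply h
    refine ⟨⟨⟨![a, u, b, v], ?_⟩, ?_⟩⟩
    · intro i j hij
      rw [SimpleGraph.cycleGraph_adj] at hij
      fin_cases i <;> fin_cases j <;>
        first
        | exact h1
        | exact h2
        | exact h3
        | exact h4
        | exact h1.symm
        | exact h2.symm
        | exact h3.symm
        | exact h4.symm
        | (exfalso; revert hij; decide)
    · intro i j hij
      have e1 : a ≠ u := h1.ne
      have e2 : a ≠ v := h2.ne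
      have e3 : b ≠ u := h3.ne
      have e4 : b ≠ v := h4.ne
      fin_cases i <;> fin_cases j <;>
        first
        | rfl
        | exact absurd hij e1
        | exact absurd hij e2
        | exact absurd hij e3
        | exact absurd hij e4
        | exact absurd hij hab
        | exact absurd hij huv
        | exact absurd hij e1.symm
        | exact absurd hij e2.symm
        | exact absurd hij e3.symm
        | exact absurd hij e4.symm
        | exact absurd hij hab.symm
        | exact absurd hij huv.symm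

section
variable {V : Type} [Fintype V]

open scoped Classical in
/-- the number of edges of a bipartite graph without `C_4` -/
lemma bip_le (H : SimpleGraph V) (A : Finset V) (hA : ∀ x y, H.Adj x y → (x ∈ A ↔ y ∉ A))
    (hH : NoC4 H) : H.edgeSet.ncard ≤ A.card.choose 2 + (Fintype.card V - A.card) := by
  rw [← card_compl]
  set N : V → Finset V := fun v => A.filter (fun a => H.Adj v a) with hN
  have h1 : H.edgeSet.ncard ≤ (Aᶜ.sigma N).card := by
    rw [← Set.ncard_coe_finset]
    have h2 : H.edgeSet ⊆ (fun p : (Σ _ : V, V) => s(p.1, p.2)) '' (Aᶜ.sigma N : Set (Σ _ : V, V)) := by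
      intro e
      induction e with
      | _ x y =>
        intro h
        rw [SimpleGraph.mem_edgeSet] at h
        by_cases hx : x ∈ A
        · refine ⟨⟨y, x⟩, ?_, Sym2.eq_swap⟩
          rw [mem_coe, mem_sigma, mem_compl]
          exact ⟨(hA _ _ h).1 hx, mem_filter.2 ⟨hx, h.symm⟩⟩
        · refine ⟨⟨x, y⟩, ?_, rfl⟩
          rw [mem_coe, mem_sigma, mem_compl]
          have hy : y ∈ A := by
            by_contra hy
            exact hx ((hA _ _ h).2 hy)
          exact ⟨hx, mem_filter.2 ⟨hy, h⟩⟩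
    exact (Set.ncard_le_ncard h2 ((Set.toFinite _).image _)).trans (Set.ncard_image_le (Set.toFinite _))
  rw [card_sigma] at h1
  have h2 : ∀ v, (N v).card ≤ ((N v).powersetCard 2).card + 1 := by
    intro v
    rw [card_powersetCard]
    rcases Nat.lt_or_ge (N v).card 2 with h | h
    · omega
    · have := Nat.choose_two_right (N v).card
      rw [this]
      have h3 : (N v).card * 1 ≤ (N v).card * ((N v).card - 1) := Nat.mul_le_mul_left _ (by omega)
      have h4 : ((N v).card - 1) * 2 ≤ (N v).card * ((N v).card - 1) := by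
        rw [mul_comm]
        exact Nat.mul_le_mul_right _ h
      omega
  have h3 : ∑ v ∈ Aᶜ, ((N v).powersetCard 2).card ≤ (A.powersetCard 2).card := by
    rw [← card_biUnion]
    · apply card_le_card
      intro p hp
      rw [mem_biUnion] at hp
      obtain ⟨v, _, hp⟩ := hp
      rw [mem_powersetCard] at hp ⊢
      exact ⟨hp.1.trans (filter_subset _ _), hp.2⟩
    · intro v _ w _ hvw
      simp only [Function.onFun]
      rw [disjoint_left]
      intro p hp hp'
      rw [mem_powersetCard] at hp hp'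
      obtain ⟨x, y, hxy, rfl⟩ := card_eq_two.1 hp.2
      have hx := mem_filter.1 (hp.1 (mem_insert_self _ _))
      have hy := mem_filter.1 (hp.1 (mem_insert_of_mem (mem_singleton_self _)))
      have hx' := mem_filter.1 (hp'.1 (mem_insert_self _ _))
      have hy' := mem_filter.1 (hp'.1 (mem_insert_of_mem (mem_singleton_self _)))
      exact hH v w x y hvw hxy hx.2 hy.2 hx'.2 hy'.2
  rw [card_powersetCard] at h3
  calc H.edgeSet.ncard ≤ ∑ v ∈ Aᶜ, (N v).card := h1
    _ ≤ ∑ v ∈ Aᶜ, (((N v).powersetCard 2).card + 1) := sum_le_sum (fun v _ => h2 v)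
    _ = ∑ v ∈ Aᶜ, ((N v).powersetCard 2).card + Aᶜ.card := by
        rw [sum_add_distrib, sum_const, smul_eq_mul, mul_one]
    _ ≤ _ := by omega

end

/-- the complete bipartite graph -/
def KB (a b : ℕ) : SimpleGraph (Fin (a + b)) where
  Adj x y := (x.val < a ∧ a ≤ y.val) ∨ (y.val < a ∧ a ≤ x.val)
  symm := ⟨fun x y h => h.symm⟩
  loopless := ⟨fun x h => by omega⟩

lemma KB_adj (a b : ℕ) (x y : Fin (a + b)) :
    (KB a b).Adj x y ↔ (x.val < a ∧ a ≤ y.val) ∨ (y.val < a ∧ a ≤ x.val) := Iff.rfl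

lemma KB_edges (a b : ℕ) : (KB a b).edgeSet.ncard = a * b := by
  have h1 : (KB a b).edgeSet = (fun p : Fin a × Fin b => s(Fin.castAdd b p.1, Fin.natAdd a p.2)) ''
      Set.univ := by
    ext e
    induction e with
    | _ x y =>
      rw [SimpleGraph.mem_edgeSet, KB_adj]
      constructor
      · rintro (⟨h1, h2⟩ | ⟨h1, h2⟩)
        · refine ⟨(⟨x.val, h1⟩, ⟨y.val - a, by omega⟩), Set.mem_univ _, ?_⟩
          have e1 : Fin.castAdd b (⟨x.val, h1⟩ : Fin a) = x := Fin.ext rfl
          have e2 : Fin.natAdd a (⟨y.val - a, by omega⟩ : Fin b) = y := Fin.ext (by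
            rw [Fin.val_natAdd]
            simp only
            omega)
          simp only [e1, e2]
        · refine ⟨(⟨y.val, h1⟩, ⟨x.val - a, by omega⟩), Set.mem_univ _, ?_⟩
          have e1 : Fin.castAdd b (⟨y.val, h1⟩ : Fin a) = y := Fin.ext rfl
          have e2 : Fin.natAdd a (⟨x.val - a, by omega⟩ : Fin b) = x := Fin.ext (by
            rw [Fin.val_natAdd]
            simp only
            omega)
          simp only [e1, e2]
          exact Sym2.eq_swap
      · rintro ⟨⟨i, j⟩, _, h⟩
        have hi := i.2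
        rcases Sym2.eq_iff.1 h with ⟨h1, h2⟩ | ⟨h1, h2⟩
        · left
          rw [← h1, ← h2, Fin.val_castAdd, Fin.val_natAdd]
          omega
        · right
          rw [← h1, ← h2, Fin.val_castAdd, Fin.val_natAdd]
          omega
  rw [h1, Set.ncard_image_of_injective, Set.ncard_univ, Nat.card_eq_fintype_card,
    Fintype.card_prod, Fintype.card_fin, Fintype.card_fin]
  rintro ⟨i, j⟩ ⟨i', j'⟩ h
  have hi := i.2
  have hi' := i'.2
  rcases Sym2.eq_iff.1 h with ⟨h1, h2⟩ | ⟨h1, h2⟩
  · have e1 := congrArg Fin.val h1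
    have e2 := congrArg Fin.val h2
    simp only [Fin.val_castAdd, Fin.val_natAdd] at e1 e2
    exact Prod.ext (Fin.ext e1) (Fin.ext (by simp only; omega))
  · have e1 := congrArg Fin.val h1
    simp only [Fin.val_castAdd, Fin.val_natAdd] at e1
    omega

lemma KB_small (a b k : ℕ) (h : a.choose 2 + b < k) : Small (KB a b) k := by
  classical
  intro H hH hC
  set A : Finset (Fin (a + b)) := univ.filter (fun x => x.val < a) with hA
  have hmem : ∀ x, x ∈ A ↔ x.val < a := fun x => by rw [hA, mem_filter]; simp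
  have h1 := bip_le H A (by
    intro x y hxy
    have := (KB_adj a b x y).1 (hH hxy)
    rw [hmem, hmem]
    omega) hC
  have h2 : A = univ.map (Fin.castAddEmb b) := by
    ext x
    rw [hmem, mem_map]
    constructor
    · intro hx
      exact ⟨⟨x.val, hx⟩, mem_univ _, Fin.ext rfl⟩
    · rintro ⟨i, _, rfl⟩
      exact i.2
  have h3 : A.card = a := by
    rw [h2, card_map, card_univ, Fintype.card_fin]
  rw [h3, Fintype.card_fin] at h1
  omega

/-- **The lower bound.** -/
theorem lower (ε : ℝ) (hε : 0 < ε) :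
    ∃ k4 : ℕ, ∀ k : ℕ, k4 ≤ k → ∃ (n : ℕ) (G : SimpleGraph (Fin n)), Small G k ∧
      (cc - ε) * (k * Real.sqrt k) ≤ (G.edgeSet.ncard : ℝ) := by
  refine ⟨max 9 ⌈(3 / ε) ^ 2⌉₊, fun k hk => ?_⟩
  have hk9 : 9 ≤ k := (le_max_left _ _).trans hk
  have hk9' : (9 : ℝ) ≤ k := by exact_mod_cast hk9
  set q : ℝ := Real.sqrt k with hq
  have hq2 : q ^ 2 = k := Real.sq_sqrt (Nat.cast_nonneg _)
  have hq3 : 3 ≤ q := by
    rw [hq]
    apply Real.le_sqrt_of_sq_le
    linarith
  have hqε : 3 ≤ ε * q := by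
    have : 3 / ε ≤ q := by
      rw [hq]
      apply Real.le_sqrt_of_sq_le
      exact (Nat.le_ceil _).trans (by exact_mod_cast (le_max_right _ _).trans hk)
    rw [div_le_iff₀ hε] at this
    linarith
  set r : ℝ := Real.sqrt (2 / 3) with hr
  have hr2 : r ^ 2 = 2 / 3 := Real.sq_sqrt (by norm_num)
  have hr0 : 0 ≤ r := Real.sqrt_nonneg _
  have hr1 : r ≤ 1 := by nlinarith
  have hrc : r * (2 / 3) = cc := by
    have h1 : (r * (2 / 3)) ^ 2 = cc ^ 2 := by
      rw [cc_sq, mul_pow, hr2]
      norm_num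
    exact (pow_left_inj₀ (by positivity) cc_nonneg (by norm_num)).1 h1
  set a : ℕ := ⌊r * q⌋₊ with ha
  have ha1 : (a : ℝ) ≤ r * q := Nat.floor_le (by positivity)
  have ha2 : r * q - 1 ≤ a := by
    have := Nat.lt_floor_add_one (r * q)
    linarith
  have ha3 : (a : ℝ) ^ 2 ≤ 2 / 3 * q ^ 2 := by
    calc (a : ℝ) ^ 2 ≤ (r * q) ^ 2 := by gcongr
      _ = 2 / 3 * q ^ 2 := by rw [mul_pow, hr2]
  have hch : ((a.choose 2 : ℕ) : ℝ) ≤ q ^ 2 / 3 := by
    rw [Nat.cast_choose_two]
    have : (0 : ℝ) ≤ a := Nat.cast_nonneg _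
    nlinarith
  have hch2 : a.choose 2 + 1 ≤ k := by
    have : ((a.choose 2 : ℕ) : ℝ) + 1 ≤ k := by
      rw [← hq2]
      nlinarith
    exact_mod_cast this
  refine ⟨a + (k - 1 - a.choose 2), KB a (k - 1 - a.choose 2), KB_small _ _ _ (by omega), ?_⟩
  rw [KB_edges, Nat.cast_mul]
  have hb : ((k - 1 - a.choose 2 : ℕ) : ℝ) = q ^ 2 - 1 - ((a.choose 2 : ℕ) : ℝ) := by
    rw [Nat.cast_sub (by omega), Nat.cast_sub (by omega), hq2]
    push_cast
    rfl
  rw [hb, ← hq2, ← hrc]
  have hb2 : 2 / 3 * q ^ 2 - 1 ≤ q ^ 2 - 1 - ((a.choose 2 : ℕ) : ℝ) := by linarith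
  have h5 : (r * q - 1) * (2 / 3 * q ^ 2 - 1) ≤ a * (q ^ 2 - 1 - ((a.choose 2 : ℕ) : ℝ)) := by
    have e1 : (0 : ℝ) ≤ a := Nat.cast_nonneg _
    have e2 : 0 ≤ 2 / 3 * q ^ 2 - 1 := by nlinarith
    calc (r * q - 1) * (2 / 3 * q ^ 2 - 1) ≤ a * (2 / 3 * q ^ 2 - 1) :=
          mul_le_mul_of_nonneg_right ha2 e2
      _ ≤ _ := mul_le_mul_of_nonneg_left hb2 e1
  refine le_trans ?_ h5
  have e3 : 3 * q ^ 2 ≤ ε * q * q ^ 2 := mul_le_mul_of_nonneg_right hqε (by positivity)
  have e4 : r * q ≤ q := by nlinarith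
  have e5 : q ≤ q ^ 2 := by nlinarith
  nlinarith

end Q116.IC4
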