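import Mathlib

set_option autoImplicit false

/-!
Subgraphs without `C_4` of graphs of bounded degree, from random maps to a polarity graph.
-/

namespace Q116.IC4

open Finset

/-- no 4-cycle -/
def NoC4 {V : Type} (H : SimpleGraph V) : Prop :=
  ∀ a b u v : V, a ≠ b → u ≠ v → H.Adj a u → H.Adj a v → H.Adj b u → H.Adj b v → False

lemma sum_update {V X : Type} [Fintype V] [DecidableEq V] [Fintype X] (w : V)
    (g : (V → X) → ℝ) :
    ∑ f : V → X, ∑ x : X, g (Function.update f w x) = Fintype.card X * ∑ f : V → X, g f := by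
  let e : ((V → X) × X) ≃ ((V → X) × X) :=
    { toFun := fun p => (Function.update p.1 w p.2, p.1 w)
      invFun := fun p => (Function.update p.1 w p.2, p.1 w)
      left_inv := by
        rintro ⟨f, x⟩
        simp
      right_inv := by
        rintro ⟨f, x⟩
        simp }
  have h := e.sum_comp (fun p => g p.1)
  rw [Fintype.sum_prod_type, Fintype.sum_prod_type] at h
  have h1 : ∑ f : V → X, ∑ x : X, g (e (f, x)).1 = ∑ f : V → X, ∑ x : X,
      g (Function.update f w x) := rfl
  rw [h1] at h
  rw [h]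
  simp only [sum_const, card_univ, nsmul_eq_mul]
  rw [mul_sum]

/-- the host: a polarity graph with loops -/
def Rel (q : ℕ) (p w : ZMod q × ZMod q) : Prop := p.2 + w.2 = w.1 * p.1

instance (q : ℕ) (p w : ZMod q × ZMod q) : Decidable (Rel q p w) := by
  unfold Rel; infer_instance

lemma Rel.symm {q : ℕ} {p w : ZMod q × ZMod q} (h : Rel q p w) : Rel q w p := by
  unfold Rel at *
  rw [add_comm, h, mul_comm]

lemma Rel.unique {q : ℕ} [Fact q.Prime] {p p' w w' : ZMod q × ZMod q} (hp : p ≠ p') (hw : w ≠ w')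
    (h1 : Rel q p w) (h2 : Rel q p w') (h3 : Rel q p' w) (h4 : Rel q p' w') : False := by
  unfold Rel at *
  have e : (w.1 - w'.1) * (p.1 - p'.1) = 0 := by linear_combination -h1 + h2 + h3 - h4
  rcases mul_eq_zero.1 e with h | h
  · have h5 : w.1 = w'.1 := by linear_combination h
    apply hw
    refine Prod.ext h5 ?_
    rw [h5] at h1
    linear_combination h1 - h2
  · have h5 : p.1 = p'.1 := by linear_combination h
    apply hp
    refine Prod.ext h5 ?_
    rw [h5] at h1
    linear_combination h1 - h3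

lemma card_Rel (q : ℕ) [Fact q.Prime] (p : ZMod q × ZMod q) :
    ∑ w : ZMod q × ZMod q, (if Rel q p w then (1 : ℝ) else 0) = q := by
  rw [Fintype.sum_prod_type]
  have : ∀ a : ZMod q, ∑ b : ZMod q, (if Rel q p (a, b) then (1 : ℝ) else 0) = 1 := by
    intro a
    rw [sum_eq_single (a * p.1 - p.2)]
    · rw [if_pos]
      unfold Rel
      simp
    · intro b _ hb
      rw [if_neg]
      intro h
      apply hb
      unfold Rel at h
      linear_combination h
    · intro h
      exact absurd (mem_univ _) h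
  rw [sum_congr rfl (fun a _ => this a), sum_const, card_univ, ZMod.card, nsmul_eq_mul, mul_one]

section
variable {V : Type} [Fintype V] [DecidableEq V]

/-- the kept edges -/
def kept (L : SimpleGraph V) (q : ℕ) (f : V → ZMod q × ZMod q) : SimpleGraph V where
  Adj u v := L.Adj u v ∧ Rel q (f u) (f v) ∧ (∀ w, L.Adj u w → w ≠ v → f w ≠ f v) ∧
    (∀ w, L.Adj v w → w ≠ u → f w ≠ f u)
  symm := ⟨fun _ _ h => ⟨h.1.symm, h.2.1.symm, h.2.2.2, h.2.2.1⟩⟩
  loopless := ⟨fun v h => L.loopless.irrefl v h.1⟩

lemma kept_noC4 (L : SimpleGraph V) (q : ℕ) [Fact q.Prime] (f : V → ZMod q × ZMod q) :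
    NoC4 (kept L q f) := by
  intro a b u v hab huv h1 h2 h3 h4
  -- `f a ≠ f b`, `f u ≠ f v`
  have hab' : f b ≠ f a := h1.2.2.2 b h3.1.symm (Ne.symm hab)
  have huv' : f v ≠ f u := h1.2.2.1 v h2.1 (Ne.symm huv)
  exact Rel.unique (Ne.symm hab') (Ne.symm huv') h1.2.1 h2.2.1 h3.2.1 h4.2.1

open scoped Classical in
/-- the number of maps for which the pair is in relation -/
lemma count1 (q : ℕ) [Fact q.Prime] (u v : V) (huv : u ≠ v) :
    (q : ℝ) * ∑ f : V → ZMod q × ZMod q, (if Rel q (f u) (f v) then (1 : ℝ) else 0) =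
      Fintype.card (V → ZMod q × ZMod q) := by
  have hq : (0 : ℝ) < q := by
    have := (Fact.out : q.Prime).pos
    exact_mod_cast this
  have h := sum_update v (fun f : V → ZMod q × ZMod q => if Rel q (f u) (f v) then (1 : ℝ) else 0)
  simp only [Function.update_self, Function.update_of_ne huv] at h
  rw [sum_congr rfl (fun f _ => card_Rel q (f u)), sum_const, nsmul_eq_mul, card_univ] at h
  have h2 : (Fintype.card (ZMod q × ZMod q) : ℝ) = q * q := by
    rw [Fintype.card_prod, ZMod.card]
    push_cast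
    rfl
  rw [h2] at h
  have h3 : (q : ℝ) * (q * ∑ f : V → ZMod q × ZMod q, (if Rel q (f u) (f v) then (1 : ℝ) else 0)) =
      q * Fintype.card (V → ZMod q × ZMod q) := by linarith
  exact mul_left_cancel₀ hq.ne' h3

open scoped Classical in
lemma count2 (q : ℕ) [Fact q.Prime] (u v w x : V) (hwu : w ≠ u) (hwv : w ≠ v) (hwx : w ≠ x) :
    (q : ℝ) ^ 2 * ∑ f : V → ZMod q × ZMod q, (if Rel q (f u) (f v) ∧ f w = f x then (1 : ℝ)
      else 0) = ∑ f : V → ZMod q × ZMod q, (if Rel q (f u) (f v) then (1 : ℝ) else 0) := by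
  have h := sum_update w (fun f : V → ZMod q × ZMod q => if Rel q (f u) (f v) ∧ f w = f x then
    (1 : ℝ) else 0)
  simp only [Function.update_self, Function.update_of_ne (Ne.symm hwu),
    Function.update_of_ne (Ne.symm hwv), Function.update_of_ne (Ne.symm hwx)] at h
  have h2 : (Fintype.card (ZMod q × ZMod q) : ℝ) = (q : ℝ) ^ 2 := by
    rw [Fintype.card_prod, ZMod.card]
    push_cast
    ring
  rw [h2] at h
  rw [← h]
  apply sum_congr rfl
  intro f _
  by_cases hr : Rel q (f u) (f v)
  · simp [hr]
  · simp [hr]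

open scoped Classical in
/-- **Large subgraphs without `C_4`.** -/
theorem exists_kept (L : SimpleGraph V) (q : ℕ) (hq : q.Prime) (Δ : ℕ)
    (hΔ : ∀ v, L.degree v ≤ Δ) (hΔq : 4 * Δ ≤ q ^ 2) :
    ∃ H : SimpleGraph V, H ≤ L ∧ NoC4 H ∧
      ∑ u, (L.degree u : ℝ) ≤ 2 * q * ∑ u, (H.degree u : ℝ) := by
  have : Fact q.Prime := ⟨hq⟩
  have hq0 : (0 : ℝ) < q := by
    have := hq.pos
    exact_mod_cast this
  set F := Fintype.card (V → ZMod q × ZMod q) with hF
  have hFpos : (0 : ℝ) < F := by
    have : 0 < F := Fintype.card_pos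
    exact_mod_cast this
  have hdeg : ∀ (H : SimpleGraph V) (u : V), (H.degree u : ℝ) = ∑ v, if H.Adj u v then (1 : ℝ)
      else 0 := by
    intro H u
    rw [sum_boole, ← H.card_neighborFinset_eq_degree, H.neighborFinset_eq_filter]
  -- for one edge
  have hedge : ∀ u v, L.Adj u v → (F : ℝ) / (2 * q) ≤
      ∑ f : V → ZMod q × ZMod q, if (kept L q f).Adj u v then (1 : ℝ) else 0 := by
    intro u v huv
    have hne : u ≠ v := huv.ne
    set N1 := ∑ f : V → ZMod q × ZMod q, (if Rel q (f u) (f v) then (1 : ℝ) else 0) with hN1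
    have c1 : (q : ℝ) * N1 = F := count1 q u v hne
    have hpt : ∀ f : V → ZMod q × ZMod q, (if Rel q (f u) (f v) then (1 : ℝ) else 0) -
        ∑ w ∈ (L.neighborFinset u).erase v, (if Rel q (f u) (f v) ∧ f w = f v then (1 : ℝ) else 0) -
        ∑ w ∈ (L.neighborFinset v).erase u, (if Rel q (f u) (f v) ∧ f w = f u then (1 : ℝ)
          else 0) ≤ if (kept L q f).Adj u v then (1 : ℝ) else 0 := by
      intro f
      have n1 : 0 ≤ ∑ w ∈ (L.neighborFinset u).erase v,
          (if Rel q (f u) (f v) ∧ f w = f v then (1 : ℝ) else 0) :=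
        sum_nonneg (fun w _ => by split_ifs <;> norm_num)
      have n2 : 0 ≤ ∑ w ∈ (L.neighborFinset v).erase u,
          (if Rel q (f u) (f v) ∧ f w = f u then (1 : ℝ) else 0) :=
        sum_nonneg (fun w _ => by split_ifs <;> norm_num)
      have n3 : (0 : ℝ) ≤ if (kept L q f).Adj u v then (1 : ℝ) else 0 := by
        split_ifs <;> norm_num
      by_cases hr : Rel q (f u) (f v)
      · rw [if_pos hr]
        by_cases h1 : ∀ w, L.Adj u w → w ≠ v → f w ≠ f v
        · by_cases h2 : ∀ w, L.Adj v w → w ≠ u → f w ≠ f u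
          · rw [if_pos (show (kept L q f).Adj u v from ⟨huv, hr, h1, h2⟩)]
            linarith
          · push Not at h2
            obtain ⟨w, hw1, hw2, hw3⟩ := h2
            have : (1 : ℝ) ≤ ∑ w ∈ (L.neighborFinset v).erase u,
                (if Rel q (f u) (f v) ∧ f w = f u then (1 : ℝ) else 0) := by
              have := single_le_sum (f := fun w => if Rel q (f u) (f v) ∧ f w = f u then (1 : ℝ)
                else 0) (fun w _ => by split_ifs <;> norm_num) (show w ∈
                (L.neighborFinset v).erase u by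
                  rw [mem_erase, SimpleGraph.mem_neighborFinset]; exact ⟨hw2, hw1⟩)
              simp only [if_pos (show Rel q (f u) (f v) ∧ f w = f u from ⟨hr, hw3⟩)] at this
              exact this
            linarith
        · push Not at h1
          obtain ⟨w, hw1, hw2, hw3⟩ := h1
          have : (1 : ℝ) ≤ ∑ w ∈ (L.neighborFinset u).erase v,
              (if Rel q (f u) (f v) ∧ f w = f v then (1 : ℝ) else 0) := by
            have := single_le_sum (f := fun w => if Rel q (f u) (f v) ∧ f w = f v then (1 : ℝ)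
              else 0) (fun w _ => by split_ifs <;> norm_num) (show w ∈
              (L.neighborFinset u).erase v by
                rw [mem_erase, SimpleGraph.mem_neighborFinset]; exact ⟨hw2, hw1⟩)
            simp only [if_pos (show Rel q (f u) (f v) ∧ f w = f v from ⟨hr, hw3⟩)] at this
            exact this
          linarith
      · rw [if_neg hr]
        linarith
    have hsum := sum_le_sum (fun f (_ : f ∈ (univ : Finset (V → ZMod q × ZMod q))) => hpt f)
    rw [sum_sub_distrib, sum_sub_distrib, ← hN1, sum_comm, sum_comm (s := univ)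
      (t := (L.neighborFinset v).erase u)] at hsum
    have hN10 : 0 ≤ N1 := sum_nonneg (fun f _ => by split_ifs <;> norm_num)
    have b1 : ∑ w ∈ (L.neighborFinset u).erase v, ∑ f : V → ZMod q × ZMod q,
        (if Rel q (f u) (f v) ∧ f w = f v then (1 : ℝ) else 0) ≤ Δ * (N1 / q ^ 2) := by
      have : ∀ w ∈ (L.neighborFinset u).erase v, ∑ f : V → ZMod q × ZMod q,
          (if Rel q (f u) (f v) ∧ f w = f v then (1 : ℝ) else 0) = N1 / q ^ 2 := by
        intro w hw
        rw [mem_erase, SimpleGraph.mem_neighborFinset] at hw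
        have := count2 q u v w v hw.2.ne' hw.1 hw.1
        rw [eq_div_iff (by positivity), mul_comm]
        exact this
      rw [sum_congr rfl this, sum_const, nsmul_eq_mul]
      apply mul_le_mul_of_nonneg_right _ (by positivity)
      have h1 : ((L.neighborFinset u).erase v).card ≤ Δ :=
        (card_le_card (erase_subset _ _)).trans (by
          rw [L.card_neighborFinset_eq_degree]; exact hΔ u)
      exact_mod_cast h1
    have b2 : ∑ w ∈ (L.neighborFinset v).erase u, ∑ f : V → ZMod q × ZMod q,
        (if Rel q (f u) (f v) ∧ f w = f u then (1 : ℝ) else 0) ≤ Δ * (N1 / q ^ 2) := by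
      have : ∀ w ∈ (L.neighborFinset v).erase u, ∑ f : V → ZMod q × ZMod q,
          (if Rel q (f u) (f v) ∧ f w = f u then (1 : ℝ) else 0) = N1 / q ^ 2 := by
        intro w hw
        rw [mem_erase, SimpleGraph.mem_neighborFinset] at hw
        have := count2 q u v w u hw.1 hw.2.ne' hw.1
        rw [eq_div_iff (by positivity), mul_comm]
        exact this
      rw [sum_congr rfl this, sum_const, nsmul_eq_mul]
      apply mul_le_mul_of_nonneg_right _ (by positivity)
      have h1 : ((L.neighborFinset v).erase u).card ≤ Δ :=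
        (card_le_card (erase_subset _ _)).trans (by
          rw [L.card_neighborFinset_eq_degree]; exact hΔ v)
      exact_mod_cast h1
    have h4 : (Δ : ℝ) * (N1 / q ^ 2) ≤ N1 / 4 := by
      rw [mul_div_assoc', div_le_iff₀ (by positivity)]
      have : (4 : ℝ) * Δ ≤ q ^ 2 := by exact_mod_cast hΔq
      nlinarith
    have h5 : (F : ℝ) / (2 * q) = N1 / 2 := by
      rw [← c1]
      field_simp
    rw [h5]
    linarith
  -- all edges
  by_contra hcon
  push Not at hcon
  have h1 : ∀ f : V → ZMod q × ZMod q, 2 * q * ∑ u, ((kept L q f).degree u : ℝ) <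
      ∑ u, (L.degree u : ℝ) := fun f =>
    hcon (kept L q f) (fun u v h => h.1) (kept_noC4 L q f)
  have h2 := sum_lt_sum_of_nonempty (s := (univ : Finset (V → ZMod q × ZMod q)))
    ⟨fun _ => 0, mem_univ _⟩ (fun f _ => h1 f)
  rw [← mul_sum, sum_const, card_univ, nsmul_eq_mul] at h2
  have h3 : ∑ u, ∑ v, (if L.Adj u v then (F : ℝ) / (2 * q) else 0) ≤
      ∑ f : V → ZMod q × ZMod q, ∑ u, ((kept L q f).degree u : ℝ) := by
    simp_rw [hdeg]
    refine le_trans ?_ (le_of_eq sum_comm)
    apply sum_le_sum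
    intro u _
    refine le_trans ?_ (le_of_eq sum_comm)
    apply sum_le_sum
    intro v _
    split_ifs with h
    · exact hedge u v h
    · exact sum_nonneg (fun f _ => by split_ifs <;> norm_num)
  have h4 : ∑ u, ∑ v, (if L.Adj u v then (F : ℝ) / (2 * q) else 0) =
      (F : ℝ) / (2 * q) * ∑ u, (L.degree u : ℝ) := by
    simp_rw [hdeg]
    rw [mul_sum]
    apply sum_congr rfl
    intro u _
    rw [mul_sum]
    apply sum_congr rfl
    intro v _
    split_ifs <;> simp
  rw [h4] at h3
  have h5 := mul_le_mul_of_nonneg_left h3 (show (0 : ℝ) ≤ 2 * q by positivity)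
  have h6 : 2 * (q : ℝ) * ((F : ℝ) / (2 * q) * ∑ u, (L.degree u : ℝ)) =
      F * ∑ u, (L.degree u : ℝ) := by
    field_simp
  rw [h6] at h5
  linarith

end

end Q116.IC4
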