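import Pool.Agent.Q116.IC4.Bip
import Pool.Agent.Q116.IC4.Map

set_option autoImplicit false

/-!
The upper bound for the inverse Turán number of the 4-cycle.
-/

namespace Q116.IC4

open Finset

/-- every subgraph without `C_4` has less than `k` edges -/
def Small {V : Type} (G : SimpleGraph V) (k : ℕ) : Prop :=
  ∀ H : SimpleGraph V, H ≤ G → NoC4 H → H.edgeSet.ncard < k

section
variable {V : Type} [Fintype V]

open scoped Classical in
lemma two_e (H : SimpleGraph V) : ∑ v, (H.degree v : ℝ) = 2 * (H.edgeSet.ncard : ℝ) := by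
  rw [← Nat.cast_sum, H.sum_degrees_eq_twice_card_edges, ← Set.ncard_coe_finset,
    H.coe_edgeFinset]
  push_cast
  rfl

open scoped Classical in
/-- the star -/
lemma degree_lt {G : SimpleGraph V} {k : ℕ} (h : Small G k) (v : V) : G.degree v < k := by
  let H : SimpleGraph V :=
    { Adj := fun a b => G.Adj a b ∧ (a = v ∨ b = v)
      symm := ⟨fun a b h => ⟨h.1.symm, h.2.symm⟩⟩
      loopless := ⟨fun a h => G.loopless.irrefl a h.1⟩ }
  have hH : ∀ a b, H.Adj a b → G.Adj a b ∧ (a = v ∨ b = v) := fun a b h => h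
  have h1 := h H (fun a b h => h.1) (by
    intro a b x y hab hxy h1 h2 h3 h4
    have e1 := (hH _ _ h1).2
    have e2 := (hH _ _ h2).2
    have e3 := (hH _ _ h3).2
    have e4 := (hH _ _ h4).2
    rcases e1 with rfl | rfl
    · rcases e3 with rfl | rfl
      · exact hab rfl
      · rcases e4 with rfl | rfl
        · exact hab rfl
        · exact hxy rfl
    · rcases e2 with rfl | rfl
      · exact (hH _ _ h1).1.ne rfl
      · exact hxy rfl)
  refine lt_of_le_of_lt ?_ h1
  have h2 : (G.neighborFinset v).card = ((fun w => s(v, w)) '' (G.neighborFinset v : Set V)).ncard := by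
    rw [Set.ncard_image_of_injective, Set.ncard_coe_finset]
    intro a b hab
    exact Sym2.congr_right.1 hab
  rw [← G.card_neighborFinset_eq_degree, h2]
  apply Set.ncard_le_ncard _ (Set.toFinite _)
  rintro _ ⟨w, hw, rfl⟩
  rw [mem_coe, SimpleGraph.mem_neighborFinset] at hw
  exact ⟨hw, Or.inl rfl⟩

open scoped Classical in
/-- the bound for graphs of bounded degree -/
lemma edges_le_of_degree {G L : SimpleGraph V} {k : ℕ} (hG : Small G k) (hLG : L ≤ G) (D : ℝ)
    (hD : 0 < D) (hdeg : ∀ v, (L.degree v : ℝ) ≤ D) :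
    (L.edgeSet.ncard : ℝ) ≤ (8 * Real.sqrt D + 4) * k := by
  set n : ℕ := ⌈2 * Real.sqrt D⌉₊ with hn
  have hsD : 0 < Real.sqrt D := Real.sqrt_pos.2 hD
  have hn0 : n ≠ 0 := by
    have : 0 < n := Nat.ceil_pos.2 (by positivity)
    omega
  obtain ⟨q, hq, hnq, hq2⟩ := Nat.exists_prime_lt_and_le_two_mul n hn0
  have h1 : 2 * Real.sqrt D ≤ n := Nat.le_ceil _
  have h2 : (n : ℝ) ≤ 2 * Real.sqrt D + 1 := (Nat.ceil_lt_add_one (by positivity)).le
  have h3 : (n : ℝ) ≤ q := by exact_mod_cast hnq.le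
  have h4 : (q : ℝ) ≤ 2 * n := by exact_mod_cast hq2
  obtain ⟨H, hHL, hHC, hsum⟩ := exists_kept L q hq ⌊D⌋₊ (fun v => Nat.le_floor (hdeg v)) (by
    have h5 : ((⌊D⌋₊ : ℕ) : ℝ) ≤ D := Nat.floor_le hD.le
    have h6 : (4 : ℝ) * D ≤ q ^ 2 := by
      calc (4 : ℝ) * D = (2 * Real.sqrt D) ^ 2 := by
            rw [mul_pow, Real.sq_sqrt hD.le]
            norm_num
        _ ≤ (q : ℝ) ^ 2 := by
            have : 2 * Real.sqrt D ≤ q := h1.trans h3
            gcongr
    have h7 : (4 : ℝ) * ((⌊D⌋₊ : ℕ) : ℝ) ≤ q ^ 2 := by linarith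
    exact_mod_cast h7)
  rw [two_e, two_e] at hsum
  have h5 : (H.edgeSet.ncard : ℝ) ≤ k := by
    have := hG H (hHL.trans hLG) hHC
    exact_mod_cast this.le
  have h6 : (0 : ℝ) ≤ q := Nat.cast_nonneg _
  have h7 : (L.edgeSet.ncard : ℝ) ≤ 2 * q * k := by nlinarith
  refine h7.trans ?_
  apply mul_le_mul_of_nonneg_right _ (Nat.cast_nonneg _)
  linarith

open scoped Classical in
/-- stars with centres in `BB` and leaves in `AA` -/
lemma noSel {G : SimpleGraph V} {k : ℕ} (hG : Small G k) (AA BB : Finset V)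
    (hAB : Disjoint BB AA) :
    NoSel BB (fun b => AA.filter (fun a => G.Adj b a)) k := by
  intro S hS1 hS2
  let H : SimpleGraph V :=
    { Adj := fun x y => (x ∈ BB ∧ y ∈ S x) ∨ (y ∈ BB ∧ x ∈ S y)
      symm := ⟨fun x y h => h.symm⟩
      loopless := ⟨fun x h => by
        rcases h with h | h <;>
        · have := hS1 x h.1 h.2
          rw [mem_filter] at this
          exact disjoint_left.1 hAB h.1 this.1⟩ }
  have hH : ∀ x y, H.Adj x y → (x ∈ BB ∧ y ∈ S x) ∨ (y ∈ BB ∧ x ∈ S y) := fun x y h => h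
  have hA : ∀ b ∈ BB, ∀ a ∈ S b, a ∉ BB := by
    intro b hb a ha hab
    have := hS1 b hb ha
    rw [mem_filter] at this
    exact disjoint_left.1 hAB hab this.1
  have key : ∀ b ∈ BB, ∀ b' ∈ BB, b ≠ b' → ∀ x y, x ≠ y → x ∈ S b → x ∈ S b' → y ∈ S b →
      y ∈ S b' → False := by
    intro b hb b' hb' hne x y hxy h1 h2 h3 h4
    have h5 := hS2 b hb b' hb' hne
    have h6 : ({x, y} : Finset V) ⊆ S b ∩ S b' := by
      intro w hw
      rw [mem_insert, mem_singleton] at hw
      rw [mem_inter]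
      rcases hw with rfl | rfl
      · exact ⟨h1, h2⟩
      · exact ⟨h3, h4⟩
    have h7 := card_le_card h6
    rw [card_pair hxy] at h7
    omega
  have h1 := hG H (by
    intro x y h
    rcases h with h | h
    · have := hS1 x h.1 h.2
      rw [mem_filter] at this
      exact this.2
    · have := hS1 y h.1 h.2
      rw [mem_filter] at this
      exact this.2.symm) (by
    intro a b u v hab huv h1 h2 h3 h4
    rcases hH _ _ h1 with k1 | k1
    · -- `a ∈ BB`
      have hu : u ∉ BB := hA a k1.1 u k1.2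
      have k2 : v ∈ S a := by
        rcases hH _ _ h2 with k | k
        · exact k.2
        · exact absurd k1.1 (hA v k.1 a k.2)
      have k3 : b ∈ BB ∧ u ∈ S b := by
        rcases hH _ _ h3 with k | k
        · exact k
        · exact absurd k.1 hu
      have k4 : v ∈ S b := by
        rcases hH _ _ h4 with k | k
        · exact k.2
        · exact absurd k3.1 (hA v k.1 b k.2)
      exact key a k1.1 b k3.1 hab u v huv k1.2 k3.2 k2 k4
    · -- `u ∈ BB`
      have ha : a ∉ BB := hA u k1.1 a k1.2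
      have k2 : v ∈ BB ∧ a ∈ S v := by
        rcases hH _ _ h2 with k | k
        · exact absurd k.1 ha
        · exact k
      have k3 : b ∈ S u := by
        rcases hH _ _ h3 with k | k
        · exact absurd k1.1 (hA b k.1 u k.2)
        · exact k.2
      have k4 : b ∈ S v := by
        rcases hH _ _ h4 with k | k
        · exact absurd k2.1 (hA b k.1 v k.2)
        · exact k.2
      exact key u k1.1 v k2.1 huv a b hab k1.2 k2.2 k3 k4)
  refine lt_of_le_of_lt ?_ h1
  have h2 : ∑ b ∈ BB, (S b).card = (BB.sigma S).card := by rw [card_sigma]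
  rw [h2, ← Set.ncard_coe_finset]
  have h3 : ((BB.sigma S : Finset (Σ _ : V, V)) : Set (Σ _ : V, V)).ncard =
      ((fun p : (Σ _ : V, V) => s(p.1, p.2)) '' (BB.sigma S : Set (Σ _ : V, V))).ncard := by
    rw [Set.ncard_image_of_injOn]
    rintro ⟨b, a⟩ h ⟨b', a'⟩ h' heq
    rw [mem_coe, mem_sigma] at h h'
    rcases Sym2.eq_iff.1 heq with ⟨h1, h2⟩ | ⟨h1, h2⟩
    · simp only at h1 h2
      subst h1 h2
      rfl
    · simp only at h1 h2
      exfalso
      exact hA b' h'.1 a' h'.2 (by rw [← h1]; exact h.1)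
  rw [h3]
  apply Set.ncard_le_ncard _ (Set.toFinite _)
  rintro _ ⟨⟨b, a⟩, h, rfl⟩
  rw [mem_coe, mem_sigma] at h
  exact Or.inl h

open scoped Classical in
lemma deg_small {G L : SimpleGraph V} (AA : Finset V)
    (hL : ∀ u v, L.Adj u v ↔ G.Adj u v ∧ u ∉ AA ∧ v ∉ AA) (D : ℝ) (hD : 0 ≤ D)
    (hG : ∀ v, v ∉ AA → (G.degree v : ℝ) ≤ D) (v : V) : (L.degree v : ℝ) ≤ D := by
  by_cases hv : v ∈ AA
  · have : L.degree v = 0 := by
      rw [← L.card_neighborFinset_eq_degree, card_eq_zero, eq_empty_iff_forall_notMem]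
      intro w hw
      rw [SimpleGraph.mem_neighborFinset] at hw
      exact ((hL _ _).1 hw).2.1 hv
    rw [this]
    push_cast
    exact hD
  · have h2 : L.degree v ≤ G.degree v := by
      rw [← L.card_neighborFinset_eq_degree, ← G.card_neighborFinset_eq_degree]
      apply card_le_card
      intro w hw
      rw [SimpleGraph.mem_neighborFinset] at hw ⊢
      exact ((hL _ _).1 hw).1
    have h3 : (L.degree v : ℝ) ≤ G.degree v := by exact_mod_cast h2
    exact h3.trans (hG v hv)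

open scoped Classical in
/-- the decomposition of the degree sum -/
lemma split_edges (G L : SimpleGraph V) (AA : Finset V)
    (hL : ∀ u v, L.Adj u v ↔ G.Adj u v ∧ u ∉ AA ∧ v ∉ AA) :
    (G.edgeSet.ncard : ℝ) ≤ L.edgeSet.ncard + (AA.card : ℝ) ^ 2 +
      ∑ b ∈ AAᶜ, ((AA.filter (fun a => G.Adj b a)).card : ℝ) := by
  have hdeg : ∀ (H : SimpleGraph V) (u : V), (H.degree u : ℝ) = ∑ v, if H.Adj u v then (1 : ℝ)
      else 0 := by
    intro H u
    rw [sum_boole, ← H.card_neighborFinset_eq_degree, H.neighborFinset_eq_filter]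
  have h1 := two_e G
  have h2 := two_e L
  simp_rw [hdeg] at h1 h2
  set g : V → V → ℝ := fun u v => if G.Adj u v then (1 : ℝ) else 0 with hg
  have hgs : ∀ u v, g u v = g v u := by
    intro u v
    simp only [hg, G.adj_comm u v]
  have e1 : ∑ u, ∑ v, g u v = ∑ u ∈ AA, ∑ v ∈ AA, g u v + ∑ u ∈ AA, ∑ v ∈ AAᶜ, g u v +
      (∑ u ∈ AAᶜ, ∑ v ∈ AA, g u v + ∑ u ∈ AAᶜ, ∑ v ∈ AAᶜ, g u v) := by
    rw [← sum_add_sum_compl AA (fun u => ∑ v, g u v), ← sum_add_distrib, ← sum_add_distrib]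
    congr 1
    · exact sum_congr rfl (fun u _ => (sum_add_sum_compl AA _).symm)
    · exact sum_congr rfl (fun u _ => (sum_add_sum_compl AA _).symm)
  have e2 : ∑ u ∈ AA, ∑ v ∈ AAᶜ, g u v = ∑ u ∈ AAᶜ, ∑ v ∈ AA, g u v := by
    rw [sum_comm]
    exact sum_congr rfl (fun u _ => sum_congr rfl (fun v _ => hgs v u))
  have e3 : ∑ u ∈ AAᶜ, ∑ v ∈ AA, g u v =
      ∑ b ∈ AAᶜ, ((AA.filter (fun a => G.Adj b a)).card : ℝ) := by
    apply sum_congr rfl
    intro b _
    rw [hg]
    simp only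
    rw [sum_boole]
  have e4 : ∑ u ∈ AAᶜ, ∑ v ∈ AAᶜ, g u v = 2 * (L.edgeSet.ncard : ℝ) := by
    rw [← h2]
    rw [← sum_add_sum_compl AA (fun u => ∑ v, if L.Adj u v then (1 : ℝ) else 0)]
    have z1 : ∑ u ∈ AA, ∑ v, (if L.Adj u v then (1 : ℝ) else 0) = 0 := by
      apply sum_eq_zero
      intro u hu
      apply sum_eq_zero
      intro v _
      rw [if_neg (fun h => ((hL u v).1 h).2.1 hu)]
    rw [z1, zero_add]
    apply sum_congr rfl
    intro u hu
    rw [mem_compl] at hu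
    rw [← sum_add_sum_compl AA (fun v => if L.Adj u v then (1 : ℝ) else 0)]
    have z2 : ∑ v ∈ AA, (if L.Adj u v then (1 : ℝ) else 0) = 0 := by
      apply sum_eq_zero
      intro v hv
      rw [if_neg (fun h => ((hL u v).1 h).2.2 hv)]
    rw [z2, zero_add]
    apply sum_congr rfl
    intro v hv
    rw [mem_compl] at hv
    simp only [hg]
    by_cases h : G.Adj u v
    · rw [if_pos h, if_pos ((hL u v).2 ⟨h, hu, hv⟩)]
    · rw [if_neg h, if_neg (fun h' => h ((hL u v).1 h').1)]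
  have e5 : ∑ u ∈ AA, ∑ v ∈ AA, g u v ≤ (AA.card : ℝ) ^ 2 := by
    calc ∑ u ∈ AA, ∑ v ∈ AA, g u v ≤ ∑ u ∈ AA, ∑ v ∈ AA, (1 : ℝ) := by
          apply sum_le_sum
          intro u _
          apply sum_le_sum
          intro v _
          simp only [hg]
          split_ifs <;> norm_num
      _ = (AA.card : ℝ) ^ 2 := by
          simp only [sum_const, nsmul_eq_mul, mul_one]
          ring
  have e6 : 0 ≤ (AA.card : ℝ) ^ 2 := by positivity
  have h1' : ∑ u, ∑ v, g u v = 2 * (G.edgeSet.ncard : ℝ) := h1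
  rw [e1, e2, e3, e4] at h1'
  linarith

end

/-- **The upper bound.** -/
theorem upper (ε : ℝ) (hε : 0 < ε) :
    ∃ k3 : ℕ, ∀ k : ℕ, k3 ≤ k → ∀ (V : Type) [Fintype V] (G : SimpleGraph V), Small G k →
      (G.edgeSet.ncard : ℝ) ≤ (cc + ε) * (k * Real.sqrt k) := by
  classical
  set s : ℝ := ε / 32 with hs
  have hs0 : 0 < s := by positivity
  set K : ℝ := 24 / s ^ 2 with hK
  have hK0 : 0 < K := by positivity
  obtain ⟨k2, hk2⟩ := bip (ε / 4) K (by positivity) hK0.le
  refine ⟨max (max k2 1) ⌈((8 + 2 * K ^ 2) / ε) ^ 2⌉₊, fun k hk V _ G hG => ?_⟩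
  have hkk2 : k2 ≤ k := (le_max_left _ _).trans ((le_max_left _ _).trans hk)
  have hk1 : 1 ≤ k := (le_max_right _ _).trans ((le_max_left _ _).trans hk)
  have hk1' : (1 : ℝ) ≤ k := by exact_mod_cast hk1
  set q : ℝ := Real.sqrt k with hq
  have hq2 : q ^ 2 = k := Real.sq_sqrt (Nat.cast_nonneg _)
  have hq1 : 1 ≤ q := by
    rw [hq, Real.one_le_sqrt]
    exact hk1'
  have hqε : (8 + 2 * K ^ 2) / ε ≤ q := by
    rw [hq]
    apply Real.le_sqrt_of_sq_le
    exact (Nat.le_ceil _).trans (by exact_mod_cast (le_max_right _ _).trans hk)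
  have hqε' : 8 + 2 * K ^ 2 ≤ ε * q := by
    rw [div_le_iff₀ hε] at hqε
    linarith
  have hkq : (k : ℝ) = q ^ 2 := hq2.symm
  -- the a priori bound
  have hap : (G.edgeSet.ncard : ℝ) ≤ 12 * q ^ 3 := by
    have h1 := edges_le_of_degree hG le_rfl (k : ℝ) (by linarith) (fun v => by
      exact_mod_cast (degree_lt hG v).le)
    rw [← hq, hkq] at h1
    refine h1.trans ?_
    have : (4 : ℝ) * q ^ 2 ≤ 4 * q ^ 3 := by
      have : q ^ 2 ≤ q ^ 3 := pow_le_pow_right₀ hq1 (by norm_num)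
      linarith
    nlinarith
  -- the vertices of large degree
  set AA : Finset V := univ.filter (fun v => s ^ 2 * k ≤ (G.degree v : ℝ)) with hAA
  have hAc : (AA.card : ℝ) ≤ K * q := by
    have h1 : (AA.card : ℝ) * (s ^ 2 * k) ≤ 2 * (G.edgeSet.ncard : ℝ) := by
      rw [← two_e G]
      calc (AA.card : ℝ) * (s ^ 2 * k) = ∑ v ∈ AA, s ^ 2 * (k : ℝ) := by
            rw [sum_const, nsmul_eq_mul]
        _ ≤ ∑ v ∈ AA, (G.degree v : ℝ) := sum_le_sum (fun v hv => (mem_filter.1 hv).2)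
        _ ≤ _ := sum_le_sum_of_subset_of_nonneg (subset_univ _)
            (fun v _ _ => Nat.cast_nonneg _)
    have h2 : (AA.card : ℝ) * (s ^ 2 * q ^ 2) ≤ 24 * q ^ 3 := by
      rw [hkq] at h1
      linarith
    have h3 : (AA.card : ℝ) * (s ^ 2 * q ^ 2) ≤ K * q * (s ^ 2 * q ^ 2) := by
      have : K * q * (s ^ 2 * q ^ 2) = 24 * q ^ 3 := by
        rw [hK]
        field_simp
      rw [this]
      exact h2
    exact le_of_mul_le_mul_right h3 (by positivity)
  -- the sparse part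
  let L : SimpleGraph V :=
    { Adj := fun u v => G.Adj u v ∧ u ∉ AA ∧ v ∉ AA
      symm := ⟨fun u v h => ⟨h.1.symm, h.2.2, h.2.1⟩⟩
      loopless := ⟨fun u h => G.loopless.irrefl u h.1⟩ }
  have hL : ∀ u v, L.Adj u v ↔ G.Adj u v ∧ u ∉ AA ∧ v ∉ AA := fun u v => Iff.rfl
  have hLG : L ≤ G := fun u v h => h.1
  have hLe := edges_le_of_degree hG hLG (s ^ 2 * k) (by positivity)
    (deg_small AA hL _ (by positivity) (fun v hv =>
      (not_le.1 (fun h => hv (mem_filter.2 ⟨mem_univ _, h⟩))).le))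
  have hsq : Real.sqrt (s ^ 2 * k) = s * q := by
    rw [Real.sqrt_mul (by positivity), Real.sqrt_sq hs0.le]
  rw [hsq] at hLe
  -- the bipartite part
  set N : V → Finset V := fun b => AA.filter (fun a => G.Adj b a) with hN
  set BB : Finset V := AAᶜ.filter (fun b => (N b).Nonempty) with hBB
  have hdis : Disjoint BB AA := by
    rw [disjoint_left]
    intro b hb
    rw [hBB, mem_filter, mem_compl] at hb
    exact hb.1
  have hns : NoSel BB N k := noSel hG AA BB hdis
  have hNe : ∀ b ∈ BB, (N b).Nonempty := fun b hb => (mem_filter.1 hb).2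
  have hBk : BB.card ≤ k := by
    let f : V → Finset V := fun b => if h : (N b).Nonempty then {h.choose} else ∅
    have hf : ∀ b ∈ BB, (f b).card = 1 ∧ f b ⊆ N b := by
      intro b hb
      simp only [f]
      rw [dif_pos (hNe b hb)]
      exact ⟨card_singleton _, singleton_subset_iff.2 (hNe b hb).choose_spec⟩
    have h1 := hns f (fun b hb => (hf b hb).2) (fun b hb b' _ _ =>
      (card_le_card inter_subset_left).trans (hf b hb).1.le)
    rw [sum_congr rfl (fun b hb => (hf b hb).1), sum_const, smul_eq_mul, mul_one] at h1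
    exact h1.le
  have hNc : ∀ b ∈ BB, ((N b).card : ℝ) ≤ K * Real.sqrt k := by
    intro b _
    have h1 : (N b).card ≤ AA.card := card_le_card (filter_subset _ _)
    have h2 : ((N b).card : ℝ) ≤ AA.card := by exact_mod_cast h1
    exact h2.trans hAc
  have hbip := hk2 k hkk2 V BB N hBk hNe hNc hns
  have hsum : ∑ b ∈ AAᶜ, ((N b).card : ℝ) = ∑ b ∈ BB, ((N b).card : ℝ) := by
    rw [hBB, sum_filter]
    apply sum_congr rfl
    intro b _
    split_ifs with h
    · rfl
    · rw [not_nonempty_iff_eq_empty.1 h, card_empty, Nat.cast_zero]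
  have hsplit := split_edges G L AA hL
  have hsplit' : (G.edgeSet.ncard : ℝ) ≤ L.edgeSet.ncard + (AA.card : ℝ) ^ 2 +
      ∑ b ∈ AAᶜ, ((N b).card : ℝ) := hsplit
  rw [hsum] at hsplit'
  have hA2 : (AA.card : ℝ) ^ 2 ≤ (K * q) ^ 2 :=
    pow_le_pow_left₀ (Nat.cast_nonneg _) hAc 2
  rw [← hq, hkq] at hbip
  rw [hkq] at hLe
  rw [hkq]
  have e1 : (8 * (s * q) + 4) * q ^ 2 = ε / 4 * q ^ 3 + 4 * q ^ 2 := by
    rw [hs]
    ring
  have e2 : (8 + 2 * K ^ 2) * q ^ 2 ≤ ε * q ^ 3 := by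
    have : (8 + 2 * K ^ 2) * q ^ 2 ≤ (ε * q) * q ^ 2 :=
      mul_le_mul_of_nonneg_right hqε' (by positivity)
    calc (8 + 2 * K ^ 2) * q ^ 2 ≤ (ε * q) * q ^ 2 := this
      _ = ε * q ^ 3 := by ring
  rw [e1] at hLe
  calc (G.edgeSet.ncard : ℝ) ≤ (ε / 4 * q ^ 3 + 4 * q ^ 2) + (K * q) ^ 2 +
        (cc + ε / 4) * (q ^ 2 * q) := by linarith
    _ = cc * q ^ 3 + ε / 2 * q ^ 3 + (8 + 2 * K ^ 2) * q ^ 2 / 2 := by ring
    _ ≤ cc * q ^ 3 + ε / 2 * q ^ 3 + ε * q ^ 3 / 2 := by linarith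
    _ = (cc + ε) * (q ^ 2 * q) := by ring

end Q116.IC4
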